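import Mathlib

/-! An irreducible cubic with prescribed quadratic characters. -/

namespace MPc709deU

open Finset

section

variable {K : Type*} [Field K] [Fintype K]

/-- the nonzero squares: weighted sums -/
theorem two_mul_sum_squares [DecidableEq K] (h2 : (2 : K) ≠ 0) (φ : K → K) :
    2 * ∑ s ∈ (univ.image (fun x : K => x ^ 2)).erase 0, φ s =
      ∑ x ∈ (univ : Finset K).erase 0, φ (x ^ 2) := by
  rw [← Finset.sum_fiberwise_of_maps_to (s := (univ : Finset K).erase 0)
    (t := (univ.image (fun x : K => x ^ 2)).erase 0) (g := fun x => x ^ 2) (f := fun x => φ (x ^ 2))]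
  · rw [Finset.mul_sum]
    apply Finset.sum_congr rfl
    intro s hs
    rw [Finset.mem_erase, Finset.mem_image] at hs
    obtain ⟨hs0, y, -, hy⟩ := hs
    have hy0 : y ≠ 0 := by
      rintro rfl
      apply hs0
      rw [← hy]; simp
    have hfil : ((univ : Finset K).erase 0).filter (fun x => x ^ 2 = s) = {y, -y} := by
      ext x
      rw [Finset.mem_filter, Finset.mem_erase, Finset.mem_insert, Finset.mem_singleton]
      constructor
      · rintro ⟨-, hx⟩
        rw [← hy] at hx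
        exact sq_eq_sq_iff_eq_or_eq_neg.1 hx
      · rintro (rfl | rfl)
        · exact ⟨⟨hy0, Finset.mem_univ _⟩, hy⟩
        · exact ⟨⟨neg_ne_zero.2 hy0, Finset.mem_univ _⟩, by rw [neg_sq, hy]⟩
    have hne : y ≠ -y := by
      intro he
      apply hy0
      have : 2 * y = 0 := by
        have := congrArg (· + y) he
        simp only [neg_add_cancel] at this
        rw [two_mul]; exact this
      exact (mul_eq_zero.1 this).resolve_left h2
    rw [hfil, Finset.sum_pair hne, neg_sq, hy]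
    ring
  · intro x hx
    rw [Finset.mem_erase] at hx ⊢
    exact ⟨pow_ne_zero 2 hx.1, Finset.mem_image.2 ⟨x, Finset.mem_univ _, rfl⟩⟩

theorem exists_lambda (h2 : (2 : K) ≠ 0) (hq : 4 ≤ Fintype.card K) :
    ∃ l : K, l ≠ 0 ∧ ¬ IsSquare (1 + 2 * l ^ 2) := by
  classical
  by_contra hcon
  push Not at hcon
  set S0 : Finset K := univ.image (fun x : K => x ^ 2) with hS0
  have h0 : (0 : K) ∈ S0 := Finset.mem_image.2 ⟨0, Finset.mem_univ _, by simp⟩
  have hmem : ∀ s : K, s ∈ S0 ↔ IsSquare s := by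
    intro s
    rw [hS0, Finset.mem_image]
    constructor
    · rintro ⟨x, -, rfl⟩
      exact ⟨x, sq x⟩
    · rintro ⟨x, rfl⟩
      exact ⟨x, Finset.mem_univ _, sq x⟩
  have hmaps : ∀ s ∈ S0, 1 + 2 * s ∈ S0 := by
    intro s hs
    obtain ⟨x, -, rfl⟩ := Finset.mem_image.1 hs
    rw [hmem]
    rcases eq_or_ne x 0 with rfl | hx
    · simp
    · exact hcon x hx
  have hinj : Function.Injective (fun s : K => 1 + 2 * s) := by
    intro s t he
    have he' : 1 + 2 * s = 1 + 2 * t := he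
    exact mul_left_cancel₀ h2 (add_left_cancel he')
  have himg : S0.image (fun s : K => 1 + 2 * s) = S0 := by
    apply Finset.eq_of_subset_of_card_le
    · intro x hx
      obtain ⟨s, hs, rfl⟩ := Finset.mem_image.1 hx
      exact hmaps s hs
    · rw [Finset.card_image_of_injective _ hinj]
  have hsum : ∑ s ∈ S0, s = (S0.card : K) + 2 * ∑ s ∈ S0, s := by
    conv_lhs => rw [← himg]
    rw [Finset.sum_image (fun a _ b _ he => hinj he), Finset.sum_add_distrib, Finset.mul_sum]
    simp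
  have hsq : ∑ x : K, x ^ 2 = 0 := FiniteField.sum_pow_lt_card_sub_one K 2 (by omega)
  have hA := two_mul_sum_squares h2 (fun s : K => s)
  have hB := two_mul_sum_squares h2 (fun _ : K => (1 : K))
  have hA2 : ∑ x ∈ (univ : Finset K).erase 0, x ^ 2 = 0 := by
    rw [Finset.sum_erase _ (by simp), hsq]
  rw [hA2] at hA
  have hA3 : ∑ s ∈ S0, s = 0 := by
    rw [← Finset.sum_erase S0 (a := (0 : K)) (f := fun s => s) rfl]
    exact (mul_eq_zero.1 hA).resolve_left h2
  rw [hA3, mul_zero, add_zero] at hsum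
  have hB2 : ∑ x ∈ (univ : Finset K).erase 0, (1 : K) = -1 := by
    rw [Finset.sum_const, Finset.card_erase_of_mem (Finset.mem_univ _), Finset.card_univ,
      nsmul_eq_mul, mul_one, Nat.cast_sub (by omega), FiniteField.cast_card_eq_zero]
    simp
  have hB3 : ∑ s ∈ S0.erase 0, (1 : K) = (S0.card : K) - 1 := by
    rw [Finset.sum_const, Finset.card_erase_of_mem h0, nsmul_eq_mul, mul_one,
      Nat.cast_sub (Finset.card_pos.2 ⟨0, h0⟩)]
    simp
  rw [hB2, hB3, ← hsum] at hB
  apply one_ne_zero (α := K)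
  linear_combination -hB

/-- There are `B, C ≠ 0` such that the cubic has no root. -/
theorem exists_noroot {l n : K} (hl : l ≠ 0) (hn : n = 1 + 2 * l ^ 2)
    (hns : ¬ IsSquare n) : ∃ B C : K, B ≠ 0 ∧ C ≠ 0 ∧
      ∀ u : K, (1 - u) * (u ^ 2 - n * B ^ 2) + 2 * n * C ^ 2 * u ≠ 0 := by
  classical
  by_contra hcon
  push Not at hcon
  have hn0 : n ≠ 0 := by rintro h; exact hns (by rw [h]; exact ⟨0, by simp⟩)
  have h1 : ∀ p : Kˣ × Kˣ, ∃ u : K, (1 - u) * (u ^ 2 - n * (p.1 : K) ^ 2) +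
      2 * n * (p.2 : K) ^ 2 * u = 0 := fun p => hcon _ _ p.1.ne_zero p.2.ne_zero
  choose U hU using h1
  have hU0 : ∀ p, U p ≠ 0 := by
    intro p h0
    have h3 := hU p
    rw [h0] at h3
    have h4 : n * (p.1 : K) ^ 2 = 0 := by linear_combination -h3
    rcases mul_eq_zero.1 h4 with h5 | h5
    · exact hn0 h5
    · exact pow_ne_zero 2 p.1.ne_zero h5
  let Φ : Kˣ × Kˣ → Kˣ × Kˣ := fun p => (Units.mk0 (U p) (hU0 p) * p.1⁻¹, p.2 * p.1⁻¹)
  have hΦ1 : ∀ p, U p = ((Φ p).1 : K) * (p.1 : K) := by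
    intro p
    simp only [Φ, Units.val_mul, Units.val_mk0]
    rw [mul_assoc, Units.inv_mul, mul_one]
  have hΦ2 : ∀ p, (p.2 : K) = ((Φ p).2 : K) * (p.1 : K) := by
    intro p
    simp only [Φ, Units.val_mul]
    rw [mul_assoc, Units.inv_mul, mul_one]
  -- the equation solved for `B`
  have key : ∀ p, ((Φ p).1 : K) ^ 2 - n = (p.1 : K) * (((Φ p).1 : K) *
      (((Φ p).1 : K) ^ 2 - n - 2 * n * ((Φ p).2 : K) ^ 2)) := by
    intro p
    have h3 := hU p
    rw [hΦ1 p, hΦ2 p] at h3
    have h4 : (p.1 : K) ^ 2 ≠ 0 := pow_ne_zero 2 p.1.ne_zero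
    apply mul_left_cancel₀ h4
    linear_combination h3
  have hne : ∀ t : K, t ^ 2 - n ≠ 0 := by
    intro t h3
    exact hns ⟨t, by linear_combination -h3⟩
  have hinj : Function.Injective Φ := by
    intro p p' he
    have h3 := key p
    have h4 := key p'
    rw [he] at h3
    have h5 : ((Φ p').1 : K) * (((Φ p').1 : K) ^ 2 - n - 2 * n * ((Φ p').2 : K) ^ 2) ≠ 0 := by
      intro h6
      rw [h6, mul_zero] at h4
      exact hne _ h4
    have h6 : (p.1 : K) = (p'.1 : K) := by
      apply mul_right_cancel₀ h5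
      rw [← h3, ← h4]
    have h7 : (p.2 : K) = (p'.2 : K) := by
      rw [hΦ2 p, hΦ2 p', he, h6]
    exact Prod.ext (Units.ext h6) (Units.ext h7)
  have hsurj := Finite.injective_iff_surjective.1 hinj
  obtain ⟨p, hp⟩ := hsurj (Units.mk0 n hn0, Units.mk0 l hl)
  have h3 := key p
  rw [hp] at h3
  simp only [Units.val_mk0] at h3
  have h4 : n ^ 2 - n - 2 * n * l ^ 2 = 0 := by rw [hn]; ring
  rw [h4, mul_zero, mul_zero] at h3
  exact hne _ h3

end

end MPc709deU
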