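import Pool.Agent.Work.MP_c709de_al_sid.Singer

/-! Arithmetic in a cubic extension of a finite field. -/

namespace MPc709deU

open Finset

section

variable {K E : Type*} [Field K] [Field E] [Algebra K E]

/-- `1, β, β^2` is independent over `K` and `β` is a root of `x^3 - x^2 + e2 x - e3`. -/
structure Cub (β : E) (e2 e3 : K) : Prop where
  root : β ^ 3 = β ^ 2 - algebraMap K E e2 * β + algebraMap K E e3
  ind : ∀ x y z : K, algebraMap K E x + algebraMap K E y * β + algebraMap K E z * β ^ 2 = 0 →
    x = 0 ∧ y = 0 ∧ z = 0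

/-- the discriminant -/
def dd (e2 e3 : K) : K := e2 ^ 2 - 4 * e2 ^ 3 - 4 * e3 + 18 * e2 * e3 - 27 * e3 ^ 2

variable {β : E} {e2 e3 : K}

theorem Cub.dd_eq (h : Cub β e2 e3) : algebraMap K E (dd e2 e3) =
    (3 * β ^ 2 - 2 * β + algebraMap K E e2) ^ 2 *
      (-3 * β ^ 2 + 2 * β + 1 - 4 * algebraMap K E e2) := by
  have h1 := h.root
  unfold dd
  simp only [map_sub, map_add, map_mul, map_pow, map_ofNat]
  generalize algebraMap K E e2 = a at *
  generalize algebraMap K E e3 = b at *
  linear_combination (27 * β ^ 3 - 27 * β ^ 2 + 27 * β * a - 18 * a + 27 * b + 4) * h1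

theorem Cub.dd_ne (h : Cub β e2 e3) (h2 : (2 : K) ≠ 0) : dd e2 e3 ≠ 0 := by
  intro h0
  have h1 := h.dd_eq
  rw [h0, map_zero] at h1
  rcases mul_eq_zero.1 h1.symm with h3 | h3
  · have h4 := pow_eq_zero_iff (two_ne_zero) |>.1 h3
    have h5 := h.ind e2 (-2) 3 (by
      simp only [map_neg, map_ofNat]
      linear_combination h4)
    exact h2 (neg_eq_zero.1 h5.2.1)
  · have h5 := h.ind (1 - 4 * e2) 2 (-3) (by
      simp only [map_neg, map_ofNat, map_sub, map_one, map_mul]
      linear_combination h3)
    exact h2 h5.2.1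

theorem Cub.not_mem (h : Cub β e2 e3) (c : K) : algebraMap K E c ≠ β := by
  intro hc
  have h5 := h.ind c (-1) 0 (by
    simp only [map_neg, map_one, map_zero]
    linear_combination hc)
  exact one_ne_zero (neg_eq_zero.1 h5.2.1)

theorem Cub.isSquare_dd [Fintype K] [Fintype E] (h : Cub β e2 e3) (h2 : (2 : K) ≠ 0)
    (hodd : Odd (Fintype.card K)) (hE : Fintype.card E = Fintype.card K ^ 3) :
    IsSquare (dd e2 e3) := by
  set q := Fintype.card K with hq
  -- the conjugate root
  set x := FiniteField.frobeniusAlgHom K E β with hx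
  have hxq : x = β ^ q := by rw [hx, FiniteField.coe_frobeniusAlgHom, hq]
  have hroot : x ^ 3 = x ^ 2 - algebraMap K E e2 * x + algebraMap K E e3 := by
    have h1 := congrArg (FiniteField.frobeniusAlgHom K E) h.root
    simp only [map_pow, map_add, map_sub, map_mul, AlgHom.commutes] at h1
    exact h1
  have hne : x - β ≠ 0 := by
    intro h0
    have h1 : β ^ Fintype.card K = β := by rw [← hq, ← hxq]; exact sub_eq_zero.1 h0
    obtain ⟨c, hc⟩ := MPc709deS.mem_range_of_pow h1
    exact h.not_mem c hc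
  have hquad : x ^ 2 + (β - 1) * x + (β ^ 2 - β + algebraMap K E e2) = 0 := by
    apply mul_left_cancel₀ hne
    linear_combination hroot - h.root
  set w : E := (3 * β ^ 2 - 2 * β + algebraMap K E e2) * (2 * x + β - 1) with hw
  have hw2 : w ^ 2 = algebraMap K E (dd e2 e3) := by
    rw [h.dd_eq, hw]
    have h3 : (2 * x + β - 1) ^ 2 = -3 * β ^ 2 + 2 * β + 1 - 4 * algebraMap K E e2 := by
      linear_combination 4 * hquad
    rw [mul_pow, h3]
  have hd0 := h.dd_ne h2
  have hw0 : w ≠ 0 := by
    intro h0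
    rw [h0] at hw2
    apply hd0
    apply (algebraMap K E).injective
    rw [← hw2, map_zero]; simp
  -- the Frobenius on `w`
  have h4 : (w ^ q) ^ 2 = w ^ 2 := by
    rw [← pow_mul, mul_comm, pow_mul, hw2, ← map_pow, hq, FiniteField.pow_card]
  have h2E : (2 : E) ≠ 0 := by
    intro h0
    apply h2
    apply (algebraMap K E).injective
    rw [map_ofNat, map_zero, h0]
  rcases sq_eq_sq_iff_eq_or_eq_neg.1 h4 with h5 | h5
  · obtain ⟨c, hc⟩ := MPc709deS.mem_range_of_pow (hq ▸ h5)
    refine ⟨c, ?_⟩
    apply (algebraMap K E).injective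
    rw [map_mul, hc, ← hw2, sq]
  · exfalso
    have h6 : w ^ (q ^ 3) = w := by
      have := FiniteField.pow_card w
      rwa [hE] at this
    have h7 : w ^ (q ^ 3) = -w := by
      have e1 : w ^ (q ^ 3) = ((w ^ q) ^ q) ^ q := by
        rw [← pow_mul, ← pow_mul]; congr 1; ring
      rw [e1, h5, hodd.neg_pow, h5, neg_neg, h5]
    rw [h6] at h7
    apply hw0
    have : 2 * w = 0 := by linear_combination h7
    exact (mul_eq_zero.1 this).resolve_left h2E

/-- the elements of the plane `3 x + y + c z = 0` -/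
def vv (β : E) (e2 : K) (a b : K) : E :=
  algebraMap K E a * (1 - 3 * β) + algebraMap K E b * (β ^ 2 - algebraMap K E (1 - 2 * e2) * β)

theorem Cub.vv_coord (_h : Cub β e2 e3) (a b : K) : vv β e2 a b =
    algebraMap K E a + algebraMap K E (-3 * a - (1 - 2 * e2) * b) * β + algebraMap K E b * β ^ 2 := by
  unfold vv
  simp only [map_sub, map_mul, map_neg, map_ofNat, map_one]
  ring

theorem Cub.vv_eq_zero (h : Cub β e2 e3) {a b : K} (h0 : vv β e2 a b = 0) : a = 0 ∧ b = 0 := by
  rw [h.vv_coord] at h0
  have := h.ind _ _ _ h0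
  exact ⟨this.1, this.2.2⟩

theorem vv_smul (c a b : K) : vv β e2 (c * a) (c * b) = algebraMap K E c * vv β e2 a b := by
  unfold vv
  simp only [map_mul]
  ring

/-- coordinates of a product of two elements of the plane -/
theorem Cub.mul_coord (h : Cub β e2 e3) (a b a' b' : K) :
    vv β e2 a b * vv β e2 a' b' =
      algebraMap K E (a * a' - 3 * e3 * (a * b' + a' * b) + (4 * e2 * e3 - e3) * (b * b')) +
      algebraMap K E (-6 * (a * a') + (5 * e2 - 1) * (a * b' + a' * b) +
        (-4 * e2 ^ 2 + e2 + e3) * (b * b')) * β +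
      algebraMap K E (9 * (a * a') + (1 - 6 * e2) * (a * b' + a' * b) +
        (4 * e2 ^ 2 - e2) * (b * b')) * β ^ 2 := by
  have h1 := h.root
  unfold vv
  simp only [map_sub, map_add, map_mul, map_neg, map_ofNat, map_one, map_pow]
  generalize algebraMap K E e2 = p at *
  generalize algebraMap K E e3 = r at *
  generalize algebraMap K E a = a at *
  generalize algebraMap K E b = b at *
  generalize algebraMap K E a' = a' at *
  generalize algebraMap K E b' = b' at *
  linear_combination (b * b' * β + (4 * p - 1) * (b * b') - 3 * (a * b' + a' * b)) * h1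

end

end MPc709deU
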