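import Pool.Agent.Work.MP_c709de_al_thr.Field2

/-! Products in the plane of trace zero. -/

namespace MPc709deU

open Finset

section

variable {K E : Type*} [Field K] [Field E] [Algebra K E] {β : E} {e2 e3 : K}

/-- the three products are independent -/
theorem Cub.indep (h : Cub β e2 e3) (h2 : (2 : K) ≠ 0) {p s r : K}
    (h1 : p - 3 * e3 * s + (4 * e2 * e3 - e3) * r = 0)
    (h3 : -6 * p + (5 * e2 - 1) * s + (-4 * e2 ^ 2 + e2 + e3) * r = 0)
    (h4 : 9 * p + (1 - 6 * e2) * s + (4 * e2 ^ 2 - e2) * r = 0) : p = 0 ∧ s = 0 ∧ r = 0 := by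
  have hd := h.dd_ne h2
  unfold dd at hd
  refine ⟨?_, ?_, ?_⟩
  · apply mul_left_cancel₀ hd
    linear_combination (-4 * e2 ^ 3 + e2 ^ 2 + 6 * e2 * e3 - e3) * h1 +
      (-12 * e2 ^ 2 * e3 + 7 * e2 * e3 - e3) * h3 +
      (-8 * e2 ^ 2 * e3 + 6 * e2 * e3 - 3 * e3 ^ 2 - e3) * h4
  · apply mul_left_cancel₀ hd
    linear_combination (-12 * e2 ^ 2 + 3 * e2 + 9 * e3) * h1 +
      (4 * e2 ^ 2 - 36 * e2 * e3 - e2 + 9 * e3) * h3 +
      (4 * e2 ^ 2 - 24 * e2 * e3 - e2 + 5 * e3) * h4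
  · apply mul_left_cancel₀ hd
    linear_combination (-9 * e2 + 3) * h1 + (6 * e2 - 27 * e3 - 1) * h3 +
      (5 * e2 - 18 * e3 - 1) * h4

theorem parallel {a b c d : K} (hab : ¬ (a = 0 ∧ b = 0)) (hcd : ¬ (c = 0 ∧ d = 0))
    (h : a * d - b * c = 0) : ∃ l : K, l ≠ 0 ∧ a = l * c ∧ b = l * d := by
  have h' : a * d = b * c := by linear_combination h
  by_cases hc : c = 0
  · have hd : d ≠ 0 := fun hd => hcd ⟨hc, hd⟩
    rw [hc, mul_zero] at h'
    have ha : a = 0 := (mul_eq_zero.1 h').resolve_right hd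
    have hb : b ≠ 0 := fun hb => hab ⟨ha, hb⟩
    refine ⟨b / d, div_ne_zero hb hd, ?_, ?_⟩
    · rw [hc, ha, mul_zero]
    · rw [div_mul_cancel₀ _ hd]
  · have ha : a ≠ 0 := by
      intro ha
      rw [ha, zero_mul] at h'
      exact hab ⟨ha, (mul_eq_zero.1 h'.symm).resolve_right hc⟩
    refine ⟨a / c, div_ne_zero ha hc, ?_, ?_⟩
    · rw [div_mul_cancel₀ _ hc]
    · rw [div_mul_eq_mul_div, h', mul_div_cancel_right₀ _ hc]

/-- unique factorisation of products of elements of the plane -/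
theorem Cub.unique (h : Cub β e2 e3) (h2 : (2 : K) ≠ 0) {a b a' b' c d c' d' k : K}
    (hab : ¬ (a = 0 ∧ b = 0)) (hab' : ¬ (a' = 0 ∧ b' = 0)) (hcd : ¬ (c = 0 ∧ d = 0))
    (heq : vv β e2 a b * vv β e2 a' b' = algebraMap K E k * (vv β e2 c d * vv β e2 c' d')) :
    (∃ l : K, l ≠ 0 ∧ a = l * c ∧ b = l * d) ∨ (∃ l : K, l ≠ 0 ∧ a' = l * c ∧ b' = l * d) := by
  have h3 := h.ind
    ((a * a' - 3 * e3 * (a * b' + a' * b) + (4 * e2 * e3 - e3) * (b * b')) -
      k * (c * c' - 3 * e3 * (c * d' + c' * d) + (4 * e2 * e3 - e3) * (d * d')))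
    ((-6 * (a * a') + (5 * e2 - 1) * (a * b' + a' * b) + (-4 * e2 ^ 2 + e2 + e3) * (b * b')) -
      k * (-6 * (c * c') + (5 * e2 - 1) * (c * d' + c' * d) +
        (-4 * e2 ^ 2 + e2 + e3) * (d * d')))
    ((9 * (a * a') + (1 - 6 * e2) * (a * b' + a' * b) + (4 * e2 ^ 2 - e2) * (b * b')) -
      k * (9 * (c * c') + (1 - 6 * e2) * (c * d' + c' * d) + (4 * e2 ^ 2 - e2) * (d * d')))
    (by
      rw [h.mul_coord, h.mul_coord] at heq
      rw [map_sub, map_sub, map_sub, map_mul (algebraMap K E) k, map_mul (algebraMap K E) k,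
        map_mul (algebraMap K E) k]
      linear_combination heq)
  obtain ⟨e1, e4, e5⟩ := h3
  obtain ⟨h6, h7, h8⟩ := h.indep h2 (p := a * a' - k * (c * c'))
    (s := (a * b' + a' * b) - k * (c * d' + c' * d)) (r := b * b' - k * (d * d'))
    (by linear_combination e1) (by linear_combination e4) (by linear_combination e5)
  have h9 : (a * d - b * c) * (a' * d - b' * c) = 0 := by
    linear_combination d ^ 2 * h6 - c * d * h7 + c ^ 2 * h8
  rcases mul_eq_zero.1 h9 with h10 | h10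
  · exact Or.inl (parallel hab hcd h10)
  · exact Or.inr (parallel hab' hcd h10)

/-- no square in `β` times the plane -/
theorem Cub.no_square (h : Cub β e2 e3) (hns : ¬ IsSquare (-e3 * dd e2 e3)) {a b a' b' k : K}
    (hab : ¬ (a = 0 ∧ b = 0)) :
    vv β e2 a b * vv β e2 a b ≠ algebraMap K E k * (β * vv β e2 a' b') := by
  intro heq
  have h3 := h.ind
    ((a * a - 3 * e3 * (a * b + a * b) + (4 * e2 * e3 - e3) * (b * b)) - k * (b' * e3))
    ((-6 * (a * a) + (5 * e2 - 1) * (a * b + a * b) + (-4 * e2 ^ 2 + e2 + e3) * (b * b)) -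
      k * (a' - b' * e2))
    ((9 * (a * a) + (1 - 6 * e2) * (a * b + a * b) + (4 * e2 ^ 2 - e2) * (b * b)) -
      k * (-3 * a' + 2 * e2 * b'))
    (by
      rw [h.mul_coord, h.vv_coord] at heq
      have h1 := h.root
      have h5 : algebraMap K E k * (β * (algebraMap K E a' +
          algebraMap K E (-3 * a' - (1 - 2 * e2) * b') * β + algebraMap K E b' * β ^ 2)) =
          algebraMap K E (k * (b' * e3)) + algebraMap K E (k * (a' - b' * e2)) * β +
          algebraMap K E (k * (-3 * a' + 2 * e2 * b')) * β ^ 2 := by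
        simp only [map_sub, map_add, map_mul, map_neg, map_ofNat, map_one]
        linear_combination algebraMap K E k * algebraMap K E b' * h1
      rw [h5] at heq
      rw [map_sub, map_sub, map_sub]
      linear_combination heq)
  obtain ⟨e1, e4, e5⟩ := h3
  have hQ : (e2 - 9 * e3) * a ^ 2 + 2 * (6 * e2 * e3 - 2 * e3) * (a * b) +
      (-4 * e2 ^ 2 * e3 + e2 * e3 + 3 * e3 ^ 2) * b ^ 2 = 0 := by
    linear_combination e2 * e1 + e3 * (3 * e4 + e5)
  have hD : (6 * e2 * e3 - 2 * e3) ^ 2 -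
      (e2 - 9 * e3) * (-4 * e2 ^ 2 * e3 + e2 * e3 + 3 * e3 ^ 2) = -e3 * dd e2 e3 := by
    unfold dd; ring
  by_cases hb : b = 0
  · have ha : a ≠ 0 := fun ha => hab ⟨ha, hb⟩
    rw [hb] at hQ
    have h6 : (e2 - 9 * e3) * a ^ 2 = 0 := by linear_combination hQ
    have h7 : e2 - 9 * e3 = 0 := (mul_eq_zero.1 h6).resolve_right (pow_ne_zero 2 ha)
    apply hns
    rw [← hD, h7]
    exact ⟨6 * e2 * e3 - 2 * e3, by ring⟩
  · apply hns
    refine ⟨((e2 - 9 * e3) * a + (6 * e2 * e3 - 2 * e3) * b) / b, ?_⟩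
    rw [← hD]
    field_simp
    linear_combination -(e2 - 9 * e3) * hQ

/-- `β^2` is not a product of two elements of the plane -/
theorem Cub.no_product (h : Cub β e2 e3)
    (hns : ¬ IsSquare (dd e2 e3 * (1 - 4 * e2 + 8 * e3))) {a b a' b' k : K}
    (hab : ¬ (a = 0 ∧ b = 0)) (hab' : ¬ (a' = 0 ∧ b' = 0)) :
    vv β e2 a b * vv β e2 a' b' ≠ algebraMap K E k * (β * β) := by
  intro heq
  have h3 := h.ind
    (a * a' - 3 * e3 * (a * b' + a' * b) + (4 * e2 * e3 - e3) * (b * b'))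
    (-6 * (a * a') + (5 * e2 - 1) * (a * b' + a' * b) + (-4 * e2 ^ 2 + e2 + e3) * (b * b'))
    ((9 * (a * a') + (1 - 6 * e2) * (a * b' + a' * b) + (4 * e2 ^ 2 - e2) * (b * b')) - k)
    (by
      rw [h.mul_coord] at heq
      rw [map_sub]
      linear_combination heq)
  obtain ⟨e1, e4, -⟩ := h3
  have hD : (4 * e2 ^ 2 - 24 * e2 * e3 - e2 + 5 * e3) ^ 2 -
      4 * (-8 * e2 ^ 2 * e3 + 6 * e2 * e3 - 3 * e3 ^ 2 - e3) * (5 * e2 - 18 * e3 - 1) =
      dd e2 e3 * (1 - 4 * e2 + 8 * e3) := by unfold dd; ring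
  have r1 : (a * b' + a' * b) * (5 * e2 - 18 * e3 - 1) -
      (b * b') * (4 * e2 ^ 2 - 24 * e2 * e3 - e2 + 5 * e3) = 0 := by
    linear_combination e4 + 6 * e1
  have r2 : (b * b') * (-8 * e2 ^ 2 * e3 + 6 * e2 * e3 - 3 * e3 ^ 2 - e3) -
      (a * a') * (5 * e2 - 18 * e3 - 1) = 0 := by
    linear_combination -3 * e3 * e4 - (5 * e2 - 1) * e1
  have r3 : (a * a') * (4 * e2 ^ 2 - 24 * e2 * e3 - e2 + 5 * e3) -
      (a * b' + a' * b) * (-8 * e2 ^ 2 * e3 + 6 * e2 * e3 - 3 * e3 ^ 2 - e3) = 0 := by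
    linear_combination (4 * e2 * e3 - e3) * e4 - (-4 * e2 ^ 2 + e2 + e3) * e1
  generalize 4 * e2 ^ 2 - 24 * e2 * e3 - e2 + 5 * e3 = s0 at *
  generalize -8 * e2 ^ 2 * e3 + 6 * e2 * e3 - 3 * e3 ^ 2 - e3 = p0 at *
  generalize 5 * e2 - 18 * e3 - 1 = r0 at *
  have hs : a * b' + a' * b = 0 := by
    by_contra hne
    apply hns
    rw [← hD]
    refine ⟨(a * b' - a' * b) * s0 / (a * b' + a' * b), ?_⟩
    field_simp
    linear_combination 4 * (b * b') * s0 * r3 - 4 * (a * b' + a' * b) * p0 * r1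
  have hp : a * a' = 0 := by
    by_contra hne
    apply hns
    rw [← hD]
    refine ⟨(a * b' - a' * b) * p0 / (a * a'), ?_⟩
    have h5 : (s0 ^ 2 - 4 * p0 * r0) * (a * a') ^ 2 = ((a * b' - a' * b) * p0) ^ 2 := by
      linear_combination ((a * a') * s0 + (a * b' + a' * b) * p0) * r3 + 4 * (a * a') * p0 * r2
    rw [div_mul_div_comm, eq_div_iff (mul_ne_zero hne hne)]
    linear_combination h5
  have hr : b * b' = 0 := by
    by_contra hne
    apply hns
    rw [← hD]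
    refine ⟨(a * b' - a' * b) * r0 / (b * b'), ?_⟩
    have h5 : (s0 ^ 2 - 4 * p0 * r0) * (b * b') ^ 2 = ((a * b' - a' * b) * r0) ^ 2 := by
      linear_combination -((b * b') * s0 + (a * b' + a' * b) * r0) * r1 - 4 * (b * b') * r0 * r2
    rw [div_mul_div_comm, eq_div_iff (mul_ne_zero hne hne)]
    linear_combination h5
  rcases mul_eq_zero.1 hp with ha | ha
  · have hb : b ≠ 0 := fun hb => hab ⟨ha, hb⟩
    have hb' : b' = 0 := (mul_eq_zero.1 hr).resolve_left hb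
    rw [ha, hb'] at hs
    have ha' : a' * b = 0 := by linear_combination hs
    exact hab' ⟨(mul_eq_zero.1 ha').resolve_right hb, hb'⟩
  · have hb' : b' ≠ 0 := fun hb' => hab' ⟨ha, hb'⟩
    have hb : b = 0 := (mul_eq_zero.1 hr).resolve_right hb'
    rw [ha, hb] at hs
    have ha' : a * b' = 0 := by linear_combination hs
    exact hab ⟨(mul_eq_zero.1 ha').resolve_right hb', hb⟩

end

end MPc709deU
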