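import Pool.Agent.Work.MP_c709de_al_thr.Field3
import Pool.Agent.Work.MP_c709de_al_thr.Field1

/-! The logarithm of the cubic extension and the field. -/

namespace MPc709deU

open Finset Polynomial

section

variable {K E : Type*} [Field K] [Field E] [Algebra K E]

theorem exists_log [Fintype K] [Fintype E] {q : ℕ} (hK : Fintype.card K = q)
    (hE : Fintype.card E = q ^ 3) : ∃ L : E → ZMod (q ^ 2 + q + 1),
      (∀ x y, x ≠ 0 → y ≠ 0 → L (x * y) = L x + L y) ∧
      (∀ x y, x ≠ 0 → y ≠ 0 → L x = L y → ∃ c : K, c ≠ 0 ∧ x = algebraMap K E c * y) ∧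
      (∀ c : K, c ≠ 0 → L (algebraMap K E c) = 0) := by
  classical
  have hq1 : 1 < q := by rw [← hK]; exact Fintype.one_lt_card
  obtain ⟨g, hg⟩ := IsCyclic.exists_generator (α := Eˣ)
  have hlog : ∀ x : Eˣ, ∃ j : ℕ, g ^ j = x := by
    intro x
    have h1 := hg x
    rw [← mem_powers_iff_mem_zpowers] at h1
    exact h1
  choose ℓ hℓ using hlog
  set M := q ^ 2 + q + 1 with hM
  have hMq : M * (q - 1) = q ^ 3 - 1 := by
    obtain ⟨r, rfl⟩ : ∃ r, q = r + 1 := ⟨q - 1, by omega⟩
    rw [hM, Nat.add_sub_cancel]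
    have : (r + 1) ^ 3 = ((r + 1) ^ 2 + (r + 1) + 1) * r + 1 := by ring
    omega
  have hcardU : Fintype.card Eˣ = M * (q - 1) := by
    rw [Fintype.card_units, hE, hMq]
  have hord : orderOf g = M * (q - 1) := by
    rw [orderOf_eq_card_of_forall_mem_zpowers hg, Nat.card_eq_fintype_card, hcardU]
  let Lu : Eˣ → ZMod M := fun x => ((ℓ x : ℕ) : ZMod M)
  have hmul : ∀ x y : Eˣ, Lu (x * y) = Lu x + Lu y := by
    intro x y
    have h1 : g ^ ℓ (x * y) = g ^ (ℓ x + ℓ y) := by rw [hℓ, pow_add, hℓ, hℓ]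
    rw [pow_eq_pow_iff_modEq, hord] at h1
    have h2 : ℓ (x * y) ≡ ℓ x + ℓ y [MOD M] := h1.of_mul_right _
    simp only [Lu]
    rw [← Nat.cast_add]
    exact (ZMod.natCast_eq_natCast_iff _ _ _).2 h2
  have hker : ∀ x y : Eˣ, Lu x = Lu y → ∃ c : K, c ≠ 0 ∧ (x : E) = algebraMap K E c * (y : E) := by
    intro x y hxy
    have h1 : ℓ x ≡ ℓ y [MOD M] := (ZMod.natCast_eq_natCast_iff _ _ _).1 hxy
    have h2 : (x * y⁻¹) ^ (q - 1) = 1 := by
      rw [mul_pow, inv_pow, mul_inv_eq_one, ← hℓ x, ← hℓ y, ← pow_mul, ← pow_mul,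
        pow_eq_pow_iff_modEq, hord]
      exact Nat.ModEq.mul_right' _ h1
    have h3 : (((x * y⁻¹ : Eˣ) : E)) ^ Fintype.card K = ((x * y⁻¹ : Eˣ) : E) := by
      rw [hK]
      have h4 : q = (q - 1) + 1 := by omega
      rw [h4, pow_succ, ← Units.val_pow_eq_pow_val, h2, Units.val_one, one_mul]
    obtain ⟨c, hc⟩ := MPc709deS.mem_range_of_pow h3
    refine ⟨c, ?_, ?_⟩
    · rintro rfl
      rw [map_zero] at hc
      exact (x * y⁻¹).ne_zero hc.symm
    · rw [hc, ← Units.val_mul, inv_mul_cancel_right]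
  have hbase : ∀ c : K, ∀ hc : algebraMap K E c ≠ 0, Lu (Units.mk0 (algebraMap K E c) hc) = 0 := by
    intro c hc
    have h1 : (Units.mk0 (algebraMap K E c) hc) ^ (q - 1) = 1 := by
      apply Units.ext
      rw [Units.val_pow_eq_pow_val, Units.val_mk0, Units.val_one, ← map_pow, ← hK,
        FiniteField.pow_card_sub_one_eq_one c (by
          rintro rfl
          exact hc (map_zero _)), map_one]
    rw [← hℓ (Units.mk0 (algebraMap K E c) hc), ← pow_mul, ← orderOf_dvd_iff_pow_eq_one, hord] at h1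
    have h2 : M ∣ ℓ (Units.mk0 (algebraMap K E c) hc) :=
      Nat.dvd_of_mul_dvd_mul_right (by omega) h1
    simp only [Lu]
    exact (ZMod.natCast_eq_zero_iff _ _).2 h2
  refine ⟨fun x => if hx : x = 0 then 0 else Lu (Units.mk0 x hx), ?_, ?_, ?_⟩
  · intro x y hx hy
    simp only [hx, hy, mul_eq_zero, or_self, dite_false]
    rw [← hmul]
    congr 1
    exact Units.ext rfl
  · intro x y hx hy h
    simp only [hx, hy, dite_false] at h
    exact hker _ _ h
  · intro c hc
    have hc' : algebraMap K E c ≠ 0 := by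
      intro h
      apply hc
      apply (algebraMap K E).injective
      rw [h, map_zero]
    simp only [hc', dite_false]
    exact hbase c hc'

end

/-- The field. -/
theorem exists_field {K : Type} [Field K] [Fintype K] (h2 : (2 : K) ≠ 0)
    (hq : 4 ≤ Fintype.card K) : ∃ (E : Type) (_ : Field E) (_ : Fintype E) (_ : Algebra K E)
      (β : E) (e2 e3 n A B : K), Fintype.card E = Fintype.card K ^ 3 ∧ Cub β e2 e3 ∧
      ¬ IsSquare n ∧ A ≠ 0 ∧ B ≠ 0 ∧ -e3 = n * A ^ 2 ∧ 1 - 4 * e2 + 8 * e3 = n * B ^ 2 := by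
  classical
  obtain ⟨l, hl, hns⟩ := exists_lambda h2 hq
  obtain ⟨B, C, hB, hC, hno⟩ := exists_noroot hl rfl hns
  set n : K := 1 + 2 * l ^ 2 with hn
  have h4 : (4 : K) ≠ 0 := by
    have : (4 : K) = 2 * 2 := by norm_num
    rw [this]; exact mul_ne_zero h2 h2
  set e3 : K := -(n * C ^ 2) / 4 with he3
  set e2 : K := (1 - 2 * n * C ^ 2 - n * B ^ 2) / 4 with he2
  set P : K[X] := X ^ 3 - X ^ 2 + Polynomial.C e2 * X - Polynomial.C e3 with hP
  have hmonic : P.Monic := by rw [hP]; monicity!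
  have hdeg : P.natDegree = 3 := by rw [hP]; compute_degree!
  have hroots : P.roots = 0 := by
    rw [Multiset.eq_zero_iff_forall_notMem]
    intro x hx
    have hx0 := isRoot_of_mem_roots hx
    rw [IsRoot.def, hP] at hx0
    simp only [eval_sub, eval_add, eval_pow, eval_X, eval_mul, eval_C] at hx0
    apply hno (1 - 2 * x)
    have h5 : 4 * e3 = -(n * C ^ 2) := by rw [he3]; field_simp
    have h6 : 4 * e2 = 1 - 2 * n * C ^ 2 - n * B ^ 2 := by rw [he2]; field_simp
    linear_combination 8 * hx0 + 2 * h5 - 2 * x * h6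
  have hirr : Irreducible P := by
    rw [hmonic.irreducible_iff_roots_eq_zero_of_degree_le_three (by omega) (by omega)]
    exact hroots
  have : Fact (Irreducible P) := ⟨hirr⟩
  let E := AdjoinRoot P
  let β : E := AdjoinRoot.root P
  have hP0 : P ≠ 0 := hmonic.ne_zero
  have hfd : Module.Finite K E := hmonic.finite_adjoinRoot
  have hfin : Finite E := Module.finite_of_finite K
  let _ : Fintype E := Fintype.ofFinite E
  have hfr : Module.finrank K E = 3 := by
    rw [← hdeg]
    exact (AdjoinRoot.powerBasis hP0).finrank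
  have hcard : Fintype.card E = Fintype.card K ^ 3 := by
    rw [Module.card_eq_pow_finrank (K := K) (V := E), hfr]
  refine ⟨E, inferInstance, inferInstance, inferInstance, β, e2, e3, n, C / 2, B, hcard,
    ⟨?_, ?_⟩, hns, div_ne_zero hC h2, hB, ?_, ?_⟩
  · have h5 : Polynomial.aeval β
        (X ^ 3 - X ^ 2 + Polynomial.C e2 * X - Polynomial.C e3 : K[X]) = 0 := by
      rw [← hP, AdjoinRoot.aeval_eq, AdjoinRoot.mk_self]
    simp only [map_sub, map_add, map_mul, map_pow, aeval_X, aeval_C] at h5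
    linear_combination h5
  · intro x y z h
    have h5 : Polynomial.aeval β (Polynomial.C x + Polynomial.C y * X + Polynomial.C z * X ^ 2) = 0 := by
      simp only [map_add, map_mul, map_pow, aeval_X, aeval_C]
      exact h
    rw [AdjoinRoot.aeval_eq, AdjoinRoot.mk_eq_zero] at h5
    have h6 : (Polynomial.C x + Polynomial.C y * X + Polynomial.C z * X ^ 2 : K[X]) = 0 := by
      by_contra hne
      have h7 := Polynomial.natDegree_le_of_dvd h5 hne
      have h8 : (Polynomial.C x + Polynomial.C y * X + Polynomial.C z * X ^ 2 : K[X]).natDegree ≤ 2 := by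
        compute_degree
      omega
    have c0 := congrArg (fun p => Polynomial.coeff p 0) h6
    have c1 := congrArg (fun p => Polynomial.coeff p 1) h6
    have c2 := congrArg (fun p => Polynomial.coeff p 2) h6
    simp [Polynomial.coeff_X, Polynomial.coeff_C] at c0 c1 c2
    exact ⟨c0, c1, c2⟩
  · rw [he3]; field_simp; norm_num
  · have h5 : 4 * e3 = -(n * C ^ 2) := by rw [he3]; field_simp
    have h6 : 4 * e2 = 1 - 2 * n * C ^ 2 - n * B ^ 2 := by rw [he2]; field_simp
    linear_combination 2 * h5 - h6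

end MPc709deU
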