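import Pool.Agent.Work.MP_c709de_al_thr.Planar2

/-! The exact range of equality for `m = q^2+q+1`. -/

namespace MPc709deU

open Finset MPc709deS MPc709de MPc709deT

section planar

variable {q m : ℕ} {D : Finset (ZMod m)}

theorem ff2_self {y : ZMod m} (hy : y ∈ D) : 1 ≤ ff2 D y := by
  apply Finset.card_pos.2
  exact ⟨y, Finset.mem_filter.2 ⟨hy, by simpa using hy⟩⟩

theorem sum_ff2 [NeZero m] : ∑ y : ZMod m, ff2 D y ≤ D.card * D.card := by
  classical
  rw [← Finset.card_product, Finset.card_eq_sum_card_fiberwise (f := fun p => p.1 + p.1 - p.2)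
    (t := (univ : Finset (ZMod m))) (fun p _ => Finset.mem_coe.2 (Finset.mem_univ _))]
  apply Finset.sum_le_sum
  intro y _
  apply Finset.card_le_card_of_injOn (fun d => (d, d + d - y))
  · intro d hd
    rw [Finset.mem_coe, Finset.mem_filter] at hd
    rw [Finset.mem_coe, Finset.mem_filter, Finset.mem_product]
    exact ⟨⟨hd.1, hd.2⟩, sub_sub_cancel _ _⟩
  · intro a _ b _ he
    exact congrArg Prod.fst he

theorem config_odd [NeZero m] (hq : 2 ≤ q) (hqo : q % 2 = 1) (hm : m = q ^ 2 + q + 1)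
    (hD : D.card = q + 1) (h : IsSidonSet D) {t : ℕ} (ht : 2 * t ≤ q) : Config q t m := by
  classical
  obtain ⟨y, hy, hf⟩ : ∃ y, y ∉ D ∧ ff2 D y = 0 := by
    by_contra hcon
    push Not at hcon
    have h1 := sum_ff2 (D := D)
    have h2 : ∑ y : ZMod m, (if y ∈ D then 1 else 2) ≤ ∑ y : ZMod m, ff2 D y := by
      apply Finset.sum_le_sum
      intro y _
      split_ifs with hy
      · exact ff2_self hy
      · have h3 := hcon y hy
        have h4 := parity hm hD h hy
        omega
    have h5 : ∑ y : ZMod m, (if y ∈ D then 1 else 2) + D.card = 2 * m := by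
      have h6 : ∑ y : ZMod m, (if y ∈ D then 1 else 0) = D.card := by
        rw [Finset.sum_ite_mem, Finset.univ_inter, Finset.sum_const, smul_eq_mul, mul_one]
      rw [← h6, ← Finset.sum_add_distrib]
      have h7 : ∀ y : ZMod m, ((if y ∈ D then 1 else 2) + (if y ∈ D then 1 else 0) : ℕ) = 2 := by
        intro y
        split_ifs <;> rfl
      rw [Finset.sum_congr rfl (fun y _ => h7 y), Finset.sum_const, Finset.card_univ, ZMod.card,
        smul_eq_mul, mul_comm]
    rw [hD] at h1 h5
    nlinarith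
  have h1 := card_PP h hy
  rw [hf, hD] at h1
  obtain ⟨z0, hz0⟩ := Finset.card_pos.1 (by omega : 0 < (PP D y).card)
  obtain ⟨Z, hZ, hZt⟩ := Finset.exists_subset_card_eq (s := (PP D y).erase z0) (n := t)
    (by rw [Finset.card_erase_of_mem hz0]; omega)
  rw [← hZt]
  apply config_of hD h (y := y) (mem_PP.1 hz0).1
  · intro z hz
    exact Finset.mem_insert_of_mem (mem_PP.1 (Finset.mem_of_mem_erase (hZ hz))).1
  · intro hz
    exact Finset.notMem_erase _ _ (hZ hz)
  · intro z hz
    rw [Finset.mem_insert] at hz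
    rcases hz with rfl | hz
    · exact (mem_PP.1 hz0).2
    · exact (mem_PP.1 (Finset.mem_of_mem_erase (hZ hz))).2

theorem exists_doubling [NeZero m] (hq : 2 ≤ q) (hqe : q % 2 = 0) (hm : m = q ^ 2 + q + 1)
    (hD : D.card = q + 1) (h : IsSidonSet D) : ∃ D' : Finset (ZMod m), D'.card = q + 1 ∧
      IsSidonSet D' ∧ (∀ a ∈ D', a + a ∈ D') ∧ ∀ a ∈ D', ∃ b ∈ D', a = b + b := by
  classical
  have hB : (D.image (fun d => d + d)).card = q + 1 := by
    rw [Finset.card_image_of_injOn, hD]
    intro a _ b _ he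
    exact double_inj hm he
  obtain ⟨y0, hy0⟩ := line_of_blocking hq hm hD h hB (by
    intro y
    by_cases hy : y ∈ D
    · exact ⟨y, hy, Finset.mem_image.2 ⟨y, hy, rfl⟩⟩
    · have h1 := parity hm hD h hy
      obtain ⟨d, hd⟩ := Finset.card_pos.1 (show 0 < ff2 D y by omega)
      rw [Finset.mem_filter] at hd
      exact ⟨_, hd.2, Finset.mem_image.2 ⟨d, hd.1, by abel⟩⟩)
  have hinj : Function.Injective (fun a : ZMod m => a - y0) := sub_left_injective
  have hinj' : Function.Injective (fun a : ZMod m => a + y0) := add_left_injective y0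
  have heq : D.image (fun a => a + y0) = D.image (fun d => d + d) := by
    apply Finset.eq_of_subset_of_card_le
    · intro x hx
      obtain ⟨d, hd, rfl⟩ := Finset.mem_image.1 hx
      exact hy0 d hd
    · rw [hB, Finset.card_image_of_injective _ hinj', hD]
  refine ⟨D.image (fun a => a - y0), by rw [Finset.card_image_of_injective _ hinj, hD],
    h.translate y0, ?_, ?_⟩
  · intro a ha
    obtain ⟨d, hd, rfl⟩ := Finset.mem_image.1 ha
    have h1 : d + d ∈ D.image (fun a => a + y0) := by
      rw [heq]; exact Finset.mem_image.2 ⟨d, hd, rfl⟩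
    obtain ⟨e, he, h2⟩ := Finset.mem_image.1 h1
    refine Finset.mem_image.2 ⟨e, he, ?_⟩
    have h2' : e + y0 = d + d := h2
    show e - y0 = d - y0 + (d - y0)
    linear_combination h2'
  · intro a ha
    obtain ⟨d, hd, rfl⟩ := Finset.mem_image.1 ha
    have h1 : d + y0 ∈ D.image (fun d => d + d) := hy0 d hd
    obtain ⟨e, he, h2⟩ := Finset.mem_image.1 h1
    have h2' : e + e = d + y0 := h2
    refine ⟨e - y0, Finset.mem_image.2 ⟨e, he, rfl⟩, ?_⟩
    show d - y0 = e - y0 + (e - y0)
    linear_combination -h2'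

theorem config_even [NeZero m] (hq : 4 ≤ q) (hqe : q % 2 = 0) (hm : m = q ^ 2 + q + 1)
    (hD : D.card = q + 1) (h : IsSidonSet D) {t : ℕ} (ht : 2 * t ≤ q) : Config q t m := by
  classical
  obtain ⟨E, hE, hSid, h2a, h2b⟩ := exists_doubling (by omega) hqe hm hD h
  have hf : ∀ y : ZMod m, y ≠ 0 → ff2 E y ≤ 1 := by
    intro y hy
    apply Finset.card_le_one.2
    intro a ha b hb
    rw [Finset.mem_filter] at ha hb
    have h1 : (a + a) + (b + b - y) = (b + b) + (a + a - y) := by abel
    rcases hSid _ (h2a a ha.1) _ hb.2 _ (h2a b hb.1) _ ha.2 h1 with ⟨h3, _⟩ | ⟨h3, _⟩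
    · exact double_inj hm h3
    · exfalso
      apply hy
      have : y = (a + a) - (a + a - y) := by abel
      rw [this, ← h3, sub_self]
  have hP : ∀ y : ZMod m, y ≠ 0 → y ∉ E → q ≤ 2 * (PP E y).card := by
    intro y hy hyE
    have h1 := card_PP hSid hyE
    have h2 := hf y hy
    omega
  obtain ⟨y, hy⟩ : ∃ y, y ∉ insert (0 : ZMod m) E := by
    by_contra hcon
    push Not at hcon
    have h1 : (univ : Finset (ZMod m)).card ≤ (insert (0 : ZMod m) E).card :=
      Finset.card_le_card (fun y _ => hcon y)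
    have h2 := Finset.card_insert_le (0 : ZMod m) E
    rw [Finset.card_univ, ZMod.card] at h1
    nlinarith
  rw [Finset.mem_insert, not_or] at hy
  have h1 := hP y hy.1 hy.2
  obtain ⟨z, hz, hzy⟩ := Finset.exists_mem_ne (by omega : 1 < (PP E y).card) (-y)
  have hy1 : y + z ≠ 0 := by
    intro h0
    apply hzy
    exact (neg_eq_of_add_eq_zero_right h0).symm
  generalize hy1d : y + z = y1 at hy1
  have hno : ∀ a ∈ E, ∀ b ∈ E, y1 ≠ a + b := by
    rw [← hy1d]; exact (mem_PP.1 hz).2
  have hy1E : y1 ∉ E := by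
    intro hcon
    obtain ⟨b, hb, he⟩ := h2b y1 hcon
    exact hno b hb b hb he
  have h2 := hP y1 hy1 hy1E
  have hdd : ∀ a ∈ E, ∀ b ∈ E, y1 + y1 ≠ a + b := by
    intro a ha b hb he
    obtain ⟨a', ha', rfl⟩ := h2b a ha
    obtain ⟨b', hb', rfl⟩ := h2b b hb
    exact hno a' ha' b' hb' (double_inj hm (by rw [he]; abel))
  obtain ⟨z0, hz0⟩ := Finset.card_pos.1 (by omega : 0 < (PP E y1).card)
  have hny : y1 ∉ (PP E y1).erase z0 := fun hcon =>
    hy1E (mem_PP.1 (Finset.mem_of_mem_erase hcon)).1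
  obtain ⟨Z, hZ, hZt⟩ := Finset.exists_subset_card_eq (s := insert y1 ((PP E y1).erase z0)) (n := t)
    (by rw [Finset.card_insert_of_notMem hny, Finset.card_erase_of_mem hz0]; omega)
  rw [← hZt]
  apply config_of hE hSid (y := y1) (mem_PP.1 hz0).1
  · intro z hz
    have h3 := hZ hz
    rw [Finset.mem_insert] at h3 ⊢
    rcases h3 with h3 | h3
    · exact Or.inl h3
    · exact Or.inr (mem_PP.1 (Finset.mem_of_mem_erase h3)).1
  · intro hz
    have h3 := hZ hz
    rw [Finset.mem_insert] at h3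
    rcases h3 with h3 | h3
    · exact hy1E (h3 ▸ (mem_PP.1 hz0).1)
    · exact Finset.notMem_erase _ _ h3
  · intro z hz
    rw [Finset.mem_insert] at hz
    rcases hz with rfl | hz
    · exact (mem_PP.1 hz0).2
    · have h3 := hZ hz
      rw [Finset.mem_insert] at h3
      rcases h3 with rfl | h3
      · exact hdd
      · exact (mem_PP.1 (Finset.mem_of_mem_erase h3)).2

end planar

/-- equality for `2 e ≥ q^2` -/
theorem eq_planar {q e : ℕ} (hq : IsPrimePow q) (he3 : 3 ≤ e) (he : q ^ 2 ≤ 2 * e)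
    (hem : e < q ^ 2 + q + 1) :
    maxRho e (q ^ 2 + q + 1) = ((ERV e (q ^ 2 + q + 1) : ℕ) : ℕ∞) := by
  have hq2 : 2 ≤ q := hq.two_le
  have e1 := choose2 q
  obtain ⟨s, hs⟩ : ∃ s, e + s = q ^ 2 + q := ⟨q ^ 2 + q - e, by omega⟩
  have hm : q ^ 2 + q + 1 = e + 1 + s := by omega
  rcases Nat.lt_or_ge ((q + 1).choose 2) s with h | h
  · obtain ⟨t, ht⟩ : ∃ t, s = (q + 1).choose 2 + t := ⟨s - (q + 1).choose 2, by omega⟩
    have ht2 : 2 * t ≤ q := by nlinarith
    have hq3 : 3 ≤ q := by
      by_contra hcon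
      have : q = 2 := by omega
      subst this
      have : t = 1 := by omega
      subst this
      have h3 : (2 + 1).choose 2 = 3 := by decide
      rw [h3] at ht
      omega
    have : NeZero (q ^ 2 + q + 1) := ⟨by omega⟩
    obtain ⟨D, hD, hSid⟩ := singer_sidon hq
    have hconf : Config q t (q ^ 2 + q + 1) := by
      rcases Nat.mod_two_eq_zero_or_one q with h2 | h2
      · exact config_even (by omega) h2 rfl hD hSid ht2
      · exact config_odd hq2 h2 rfl hD hSid ht2
    rw [equality he3 hem]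
    have e2 := choose2 (e + 1)
    have e3 : e + 1 + 1 = e + 2 := rfl
    rw [e3] at e2
    refine ⟨?_, q, t, by omega, by rw [hm, ht], hconf⟩
    by_contra hcon
    push Not at hcon
    have h5 : q < e + 1 := by
      by_contra hcon2
      push Not at hcon2
      nlinarith
    nlinarith
  · rw [hm]
    exact (att_of_singer hq h hs).2.2

/-- no equality for `2 e < q^2 - 1` -/
theorem ne_planar {q e : ℕ} (hq : 1 ≤ q) (he3 : 3 ≤ e) (he : 2 * e + 1 < q ^ 2) :
    maxRho e (q ^ 2 + q + 1) ≠ ((ERV e (q ^ 2 + q + 1) : ℕ) : ℕ∞) := by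
  have e1 := choose2 q
  have : NeZero (q ^ 2 + q + 1) := ⟨by omega⟩
  intro heq
  rw [equality he3 (by nlinarith)] at heq
  obtain ⟨-, k, t, htk, hm, hconf⟩ := heq
  have e2 := choose2 k
  obtain ⟨S, hS, hSid⟩ := sidon_of_config hconf
  have h1 := hSid.card_bound
  rw [hS, Nat.add_sub_cancel] at h1
  have hkq : k ≤ q := by
    by_contra hcon
    push Not at hcon
    nlinarith
  rcases Nat.lt_or_ge k q with hlt | hge
  · have h2 : (k + 1) * (k + 2) ≤ q * (q + 1) := Nat.mul_le_mul (by omega) (by omega)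
    nlinarith
  · have hkq' : k = q := le_antisymm hkq hge
    subst hkq'
    have h2 := t_bound rfl hq hconf
    nlinarith

end MPc709deU
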