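import Pool.Agent.Work.MP_c709de_al_thr.Field4
import Pool.Agent.Work.MP_c709de_al_thr.Planar3

/-! The planar difference set of the plane and the special element. -/

namespace MPc709deU

open Finset MPc709deS MPc709de MPc709deT

section

variable {K E : Type*} [Field K] [Field E] [Algebra K E] {β : E} {e2 e3 : K}

theorem Cub.vv_inj (h : Cub β e2 e3) {a b a' b' : K} (he : vv β e2 a b = vv β e2 a' b') :
    a = a' ∧ b = b' := by
  have h1 : vv β e2 (a - a') (b - b') = 0 := by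
    have : vv β e2 (a - a') (b - b') = vv β e2 a b - vv β e2 a' b' := by
      unfold vv
      simp only [map_sub]
      ring
    rw [this, he, sub_self]
  obtain ⟨h2, h3⟩ := h.vv_eq_zero h1
  exact ⟨sub_eq_zero.1 h2, sub_eq_zero.1 h3⟩

theorem not_isSquare_mul {n k x : K} (hn : ¬ IsSquare n) (hk : k ≠ 0) (hx : x = n * k ^ 2) :
    ¬ IsSquare x := by
  rintro ⟨y, hy⟩
  apply hn
  refine ⟨y / k, ?_⟩
  rw [div_mul_div_comm, eq_div_iff (mul_ne_zero hk hk), ← hy, hx]
  ring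

end

theorem exists_special {q : ℕ} (hq : IsPrimePow q) (hodd : q % 2 = 1) (hq4 : 4 ≤ q) :
    ∃ D : Finset (ZMod (q ^ 2 + q + 1)), D.card = q + 1 ∧ IsSidonSet D ∧
      ∃ y, y ∉ D ∧ ff2 D y = 0 ∧ ∀ a ∈ D, ∀ b ∈ D, y + y ≠ a + b := by
  classical
  obtain ⟨p, n, hp, hn, hqpn⟩ := hq
  have hp' : p.Prime := hp.nat_prime
  have : Fact p.Prime := ⟨hp'⟩
  let K : Type := GaloisField p n
  have : Finite K := inferInstance
  let _ : Fintype K := Fintype.ofFinite K
  have hK : Fintype.card K = q := by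
    rw [← hqpn, ← Nat.card_eq_fintype_card]; exact GaloisField.card p n hn.ne'
  have h2 : (2 : K) ≠ 0 := by
    intro h0
    have h1 : ringChar K ∣ 2 := ringChar.dvd (by exact_mod_cast h0)
    have h3 : ringChar K = 2 := by
      rcases (Nat.dvd_prime Nat.prime_two).1 h1 with h4 | h4
      · exact absurd h4 CharP.ringChar_ne_one
      · exact h4
    have h4 := FiniteField.even_card_iff_char_two.1 h3
    rw [hK] at h4
    omega
  obtain ⟨E, _, _, _, β, e2, e3, ν, A, B, hE, h, hν, hA, hB, hA', hB'⟩ :=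
    exists_field h2 (by rw [hK]; exact hq4)
  rw [hK] at hE
  obtain ⟨k, hk⟩ := h.isSquare_dd h2 (by rw [hK]; exact Nat.odd_iff.2 hodd) (by rw [hK]; exact hE)
  have hk0 : k ≠ 0 := by
    rintro rfl
    exact h.dd_ne h2 (by rw [hk]; simp)
  have hns1 : ¬ IsSquare (-e3 * dd e2 e3) :=
    not_isSquare_mul hν (mul_ne_zero hA hk0) (by rw [hA', hk]; ring)
  have hns2 : ¬ IsSquare (dd e2 e3 * (1 - 4 * e2 + 8 * e3)) :=
    not_isSquare_mul hν (mul_ne_zero hB hk0) (by rw [hB', hk]; ring)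
  obtain ⟨L, hL1, hL2, hL3⟩ := exists_log hK hE
  have hι : ∀ c : K, c ≠ 0 → algebraMap K E c ≠ 0 := by
    intro c hc h0
    apply hc
    apply (algebraMap K E).injective
    rw [h0, map_zero]
  have hβ : β ≠ 0 := by
    intro h0
    exact h.not_mem 0 (by rw [map_zero, h0])
  have hv : ∀ a b : K, ¬ (a = 0 ∧ b = 0) → vv β e2 a b ≠ 0 := fun a b hab h0 =>
    hab (h.vv_eq_zero h0)
  have hLs : ∀ (c : K) (x : E), c ≠ 0 → x ≠ 0 → L (algebraMap K E c * x) = L x := by
    intro c x hc hx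
    rw [hL1 _ _ (hι c hc) hx, hL3 c hc, zero_add]
  set D : Finset (ZMod (q ^ 2 + q + 1)) :=
    insert (L (vv β e2 0 1)) (univ.image (fun s : K => L (vv β e2 1 s))) with hD
  have h01 : ¬ ((0 : K) = 0 ∧ (1 : K) = 0) := fun h0 => one_ne_zero h0.2
  have h1s : ∀ s : K, ¬ ((1 : K) = 0 ∧ s = 0) := fun s h0 => one_ne_zero h0.1
  have hmem : ∀ x, x ∈ D ↔ ∃ a b : K, ¬ (a = 0 ∧ b = 0) ∧ x = L (vv β e2 a b) := by
    intro x
    rw [hD, Finset.mem_insert, Finset.mem_image]
    constructor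
    · rintro (hx | ⟨s, -, hx⟩)
      · exact ⟨0, 1, h01, hx⟩
      · exact ⟨1, s, h1s s, hx.symm⟩
    · rintro ⟨a, b, hab, rfl⟩
      by_cases ha : a = 0
      · left
        have hb : b ≠ 0 := fun hb => hab ⟨ha, hb⟩
        have h5 : vv β e2 a b = algebraMap K E b * vv β e2 0 1 := by
          rw [← vv_smul, ha, mul_zero, mul_one]
        rw [h5, hLs b _ hb (hv 0 1 h01)]
      · right
        refine ⟨b / a, Finset.mem_univ _, ?_⟩
        have h5 : vv β e2 a b = algebraMap K E a * vv β e2 1 (b / a) := by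
          rw [← vv_smul, mul_one, mul_div_cancel₀ _ ha]
        rw [h5, hLs a _ ha (hv 1 _ (h1s _))]
  refine ⟨D, ?_, ?_, L β, ?_, ?_, ?_⟩
  · rw [hD, Finset.card_insert_of_notMem, Finset.card_image_of_injective, Finset.card_univ, hK]
    · intro s t hst
      obtain ⟨c, hc, he⟩ := hL2 _ _ (hv 1 s (h1s s)) (hv 1 t (h1s t)) hst
      rw [← vv_smul] at he
      obtain ⟨h5, h6⟩ := h.vv_inj he
      rw [mul_one] at h5
      rw [h6, ← h5, one_mul]
    · rw [Finset.mem_image]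
      rintro ⟨s, -, hs⟩
      obtain ⟨c, hc, he⟩ := hL2 _ _ (hv 1 s (h1s s)) (hv 0 1 h01) hs
      rw [← vv_smul] at he
      obtain ⟨h5, -⟩ := h.vv_inj he
      rw [mul_zero] at h5
      exact one_ne_zero h5
  · intro x1 hx1 x2 hx2 x3 hx3 x4 hx4 he
    obtain ⟨a1, b1, h1, rfl⟩ := (hmem x1).1 hx1
    obtain ⟨a2, b2, h2', rfl⟩ := (hmem x2).1 hx2
    obtain ⟨a3, b3, h3, rfl⟩ := (hmem x3).1 hx3
    obtain ⟨a4, b4, h4, rfl⟩ := (hmem x4).1 hx4
    rw [← hL1 _ _ (hv _ _ h1) (hv _ _ h2'), ← hL1 _ _ (hv _ _ h3) (hv _ _ h4)] at he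
    obtain ⟨c, hc, he'⟩ := hL2 _ _ (mul_ne_zero (hv _ _ h1) (hv _ _ h2'))
      (mul_ne_zero (hv _ _ h3) (hv _ _ h4)) he
    rw [hL1 _ _ (hv _ _ h1) (hv _ _ h2'), hL1 _ _ (hv _ _ h3) (hv _ _ h4)] at he
    rcases h.unique h2 h1 h2' h3 he' with ⟨l, hl, h5, h6⟩ | ⟨l, hl, h5, h6⟩
    · have h7 : L (vv β e2 a1 b1) = L (vv β e2 a3 b3) := by
        rw [h5, h6, vv_smul, hLs l _ hl (hv _ _ h3)]
      left
      refine ⟨h7, ?_⟩
      rw [h7] at he
      exact add_left_cancel he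
    · have h7 : L (vv β e2 a2 b2) = L (vv β e2 a3 b3) := by
        rw [h5, h6, vv_smul, hLs l _ hl (hv _ _ h3)]
      right
      refine ⟨?_, h7⟩
      rw [h7] at he
      exact add_right_cancel (he.trans (add_comm _ _))
  · intro hy
    obtain ⟨a, b, hab, he⟩ := (hmem _).1 hy
    obtain ⟨c, hc, he'⟩ := hL2 _ _ hβ (hv _ _ hab) he
    rw [← vv_smul, h.vv_coord] at he'
    have h5 := h.ind (c * a) (-3 * (c * a) - (1 - 2 * e2) * (c * b) - 1) (c * b) (by
      rw [map_sub (algebraMap K E) _ 1, map_one]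
      linear_combination -he')
    obtain ⟨h6, -, h7⟩ := h5
    exact hab ⟨(mul_eq_zero.1 h6).resolve_left hc, (mul_eq_zero.1 h7).resolve_left hc⟩
  · unfold ff2
    rw [Finset.card_eq_zero, Finset.filter_eq_empty_iff]
    intro d hd hd'
    obtain ⟨a, b, hab, rfl⟩ := (hmem d).1 hd
    obtain ⟨a', b', hab', he⟩ := (hmem _).1 hd'
    have he2 : L (vv β e2 a b * vv β e2 a b) = L (β * vv β e2 a' b') := by
      rw [hL1 _ _ (hv _ _ hab) (hv _ _ hab), hL1 _ _ hβ (hv _ _ hab'), ← he]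
      abel
    obtain ⟨c, hc, he3⟩ := hL2 _ _ (mul_ne_zero (hv _ _ hab) (hv _ _ hab))
      (mul_ne_zero hβ (hv _ _ hab')) he2
    exact h.no_square hns1 hab he3
  · intro x hx y hy he
    obtain ⟨a, b, hab, rfl⟩ := (hmem x).1 hx
    obtain ⟨a', b', hab', rfl⟩ := (hmem y).1 hy
    rw [← hL1 _ _ hβ hβ, ← hL1 _ _ (hv _ _ hab) (hv _ _ hab')] at he
    obtain ⟨c, hc, he3⟩ := hL2 _ _ (mul_ne_zero (hv _ _ hab) (hv _ _ hab'))
      (mul_ne_zero hβ hβ) he.symm
    exact h.no_product hns2 hab hab' he3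

theorem config_special {q : ℕ} (hq : IsPrimePow q) (hodd : q % 2 = 1) (hq4 : 4 ≤ q) {t : ℕ}
    (ht : 2 * t ≤ q + 1) : Config q t (q ^ 2 + q + 1) := by
  classical
  have : NeZero (q ^ 2 + q + 1) := ⟨by omega⟩
  obtain ⟨D, hD, hSid, y, hy, hf, hdd⟩ := exists_special hq hodd hq4
  have h1 := card_PP hSid hy
  rw [hf, hD] at h1
  obtain ⟨z0, hz0⟩ := Finset.card_pos.1 (by omega : 0 < (PP D y).card)
  have hny : y ∉ (PP D y).erase z0 := fun hcon =>
    hy (mem_PP.1 (Finset.mem_of_mem_erase hcon)).1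
  obtain ⟨Z, hZ, hZt⟩ := Finset.exists_subset_card_eq (s := insert y ((PP D y).erase z0)) (n := t)
    (by rw [Finset.card_insert_of_notMem hny, Finset.card_erase_of_mem hz0]; omega)
  rw [← hZt]
  apply config_of hD hSid (y := y) (mem_PP.1 hz0).1
  · intro z hz
    have h3 := hZ hz
    rw [Finset.mem_insert] at h3 ⊢
    rcases h3 with h3 | h3
    · exact Or.inl h3
    · exact Or.inr (mem_PP.1 (Finset.mem_of_mem_erase h3)).1
  · intro hz
    have h3 := hZ hz
    rw [Finset.mem_insert] at h3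
    rcases h3 with h3 | h3
    · exact hy (h3 ▸ (mem_PP.1 hz0).1)
    · exact Finset.notMem_erase _ _ h3
  · intro z hz
    rw [Finset.mem_insert] at hz
    rcases hz with rfl | hz
    · exact (mem_PP.1 hz0).2
    · have h3 := hZ hz
      rw [Finset.mem_insert] at h3
      rcases h3 with rfl | h3
      · exact hdd
      · exact (mem_PP.1 (Finset.mem_of_mem_erase h3)).2

/-- The exact threshold for `m = q^2+q+1`, `q ≥ 4` a prime power. -/
theorem iff_planar {q e : ℕ} (hq : IsPrimePow q) (hq4 : 4 ≤ q) (he3 : 3 ≤ e)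
    (hem : e < q ^ 2 + q + 1) :
    maxRho e (q ^ 2 + q + 1) = ((ERV e (q ^ 2 + q + 1) : ℕ) : ℕ∞) ↔ q ^ 2 / 2 ≤ e := by
  constructor
  · intro heq
    by_contra hcon
    push Not at hcon
    exact ne_planar (q := q) (e := e) (by omega) he3 (by omega) heq
  · intro he
    rcases Nat.lt_or_ge (2 * e) (q ^ 2) with hlt | hge
    · -- `q` is odd and `2 e = q^2 - 1`
      have h1 : q ^ 2 = 2 * e + 1 := by omega
      have hodd : q % 2 = 1 := by
        rcases Nat.mod_two_eq_zero_or_one q with h2 | h2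
        · exfalso
          have h3 : q ^ 2 % 2 = 0 := by rw [Nat.pow_mod, h2]
          omega
        · exact h2
      have e1 := choose2 q
      obtain ⟨t, ht⟩ : ∃ t, q + 1 = 2 * t := ⟨(q + 1) / 2, by omega⟩
      have hconf := config_special hq hodd hq4 (t := t) (by omega)
      rw [equality he3 hem]
      have e2 := choose2 (e + 1)
      have e3 : e + 1 + 1 = e + 2 := rfl
      rw [e3] at e2
      refine ⟨?_, q, t, by omega, by nlinarith, hconf⟩
      by_contra hcon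
      push Not at hcon
      nlinarith
    · exact eq_planar hq he3 hge hem

end MPc709deU
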