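import Pool.Agent.Work.MP_c709de_al_thr.Field5

/-! The final statement. -/

namespace MPc709deU

open Finset MPc709deS MPc709de MPc709deT

theorem iff_planar' {q e : ℕ} (hq : IsPrimePow q) (hq3 : q ≠ 3) (he3 : 3 ≤ e)
    (hem : e < q ^ 2 + q + 1) :
    maxRho e (q ^ 2 + q + 1) = ((ERV e (q ^ 2 + q + 1) : ℕ) : ℕ∞) ↔ q ^ 2 / 2 ≤ e := by
  have hq2 := hq.two_le
  rcases Nat.lt_or_ge q 4 with h | h
  · have h2 : q = 2 := by omega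
    subst h2
    exact ⟨fun _ => by norm_num; omega, fun _ => eq_planar hq he3 (by omega) hem⟩
  · exact iff_planar hq h he3 hem

theorem final :
    (∀ q e : ℕ, IsPrimePow q → q ≠ 3 → 3 ≤ e → e < q ^ 2 + q + 1 →
      (maxRho e (q ^ 2 + q + 1) = ((ERV e (q ^ 2 + q + 1) : ℕ) : ℕ∞) ↔ q ^ 2 / 2 ≤ e)) ∧
    Filter.Tendsto (fun s : ℕ => ((sInf {e : ℕ | 3 ≤ e ∧
        maxRho e (e + 1 + s) = ((ERV e (e + 1 + s) : ℕ) : ℕ∞)} : ℕ) : ℝ) / s)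
      Filter.atTop (nhds 1) ∧
    Filter.Tendsto (fun e : ℕ => ((sSup {m : ℕ | e < m ∧
        maxRho e m = ((ERV e m : ℕ) : ℕ∞)} : ℕ) : ℝ) / e) Filter.atTop (nhds 2) ∧
    ∃ c : ℕ → ℝ, (∀ s, c s ≤ 15) ∧ Filter.Tendsto c Filter.atTop (nhds 3) ∧
      ∀ e s : ℕ, 3 ≤ e →
        (c s * s ≤ e → maxRho e (e + 1 + s) = ((ERV e (e + 1 + s) : ℕ) : ℕ∞)) ∧
        (maxRho e (e + 1 + s) = ((ERV e (e + 1 + s) : ℕ) : ℕ∞) →
          (s : ℝ) - 2 * Real.sqrt (2 * s) ≤ e) :=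
  ⟨fun _ _ hq hq3 he3 hem => iff_planar' hq hq3 he3 hem, lo_asymp, hi_asymp, threshold⟩

end MPc709deU
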