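import Pool.Agent.Work.MP_c709de_al_thr.Sharp

/-! Planar difference sets and the exact range of equality for `m = q^2+q+1`. -/

namespace MPc709deU

open Finset MPc709deS MPc709de MPc709deT

section planar

variable {q m : ℕ} {D : Finset (ZMod m)}

/-- Sidon sets of `q + 1` elements modulo `q^2+q+1` are perfect difference sets. -/
theorem perfect [NeZero m] (hm : m = q ^ 2 + q + 1) (hD : D.card = q + 1) (h : IsSidonSet D)
    {x : ZMod m} (hx : x ≠ 0) : ∃ a ∈ D, ∃ b ∈ D, a - b = x := by
  have hmaps : Set.MapsTo (fun p : ZMod m × ZMod m => p.1 - p.2) (D.offDiag : Set (ZMod m × ZMod m))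
      ((univ : Finset (ZMod m)).erase 0 : Finset (ZMod m)) := by
    rintro ⟨a, b⟩ hab
    rw [Finset.mem_coe, Finset.mem_offDiag] at hab
    rw [Finset.mem_coe, Finset.mem_erase]
    exact ⟨sub_ne_zero.2 hab.2.2, Finset.mem_univ _⟩
  have hinj : Set.InjOn (fun p : ZMod m × ZMod m => p.1 - p.2)
      (D.offDiag : Set (ZMod m × ZMod m)) := by
    rintro ⟨a, b⟩ hab ⟨c, d⟩ hcd he
    rw [Finset.mem_coe, Finset.mem_offDiag] at hab hcd
    have he' : a - b = c - d := he
    have h2 : a + d = c + b := by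
      have : a = c - d + b := by rw [← he']; abel
      rw [this]; abel
    rcases h a hab.1 d hcd.2.1 c hcd.1 b hab.2.1 h2 with ⟨h3, h4⟩ | ⟨h3, h4⟩
    · exact Prod.ext h3 h4.symm
    · exact absurd h3 hab.2.2
  have hcard : ((univ : Finset (ZMod m)).erase 0).card ≤ D.offDiag.card := by
    rw [Finset.offDiag_card, Finset.card_erase_of_mem (Finset.mem_univ _), Finset.card_univ,
      ZMod.card, hD, hm]
    have : (q + 1) * (q + 1) = q ^ 2 + q + (q + 1) := by ring
    omega
  have hs := Finset.surjOn_of_injOn_of_card_le _ hmaps hinj hcard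
  obtain ⟨⟨a, b⟩, hab, he⟩ := hs (Finset.mem_coe.2 (Finset.mem_erase.2 ⟨hx, Finset.mem_univ x⟩))
  rw [Finset.mem_coe, Finset.mem_offDiag] at hab
  exact ⟨a, hab.1, b, hab.2.1, he⟩

theorem partner [NeZero m] (hm : m = q ^ 2 + q + 1) (hD : D.card = q + 1) (h : IsSidonSet D)
    {y : ZMod m} (hy : y ∉ D) {d : ZMod m} (hd : d ∈ D) :
    ∃ z ∈ D, ∃ d' ∈ D, y + z = d + d' := by
  have hx : y - d ≠ 0 := by
    intro h0
    exact hy (by rw [sub_eq_zero.1 h0]; exact hd)
  obtain ⟨a, ha, b, hb, hab⟩ := perfect hm hD h hx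
  refine ⟨b, hb, a, ha, ?_⟩
  have : a = y - d + b := by rw [← hab]; abel
  rw [this]; abel

/-- upper bound for the number of `z ∈ D` with `y + z` outside `D + D` -/
theorem two_mul_le [NeZero m] (hm : m = q ^ 2 + q + 1) (hD : D.card = q + 1) (h : IsSidonSet D)
    {y : ZMod m} (hy : y ∉ D) {P : Finset (ZMod m)} (hP : P ⊆ D)
    (hPs : ∀ z ∈ P, ∀ a ∈ D, ∀ b ∈ D, y + z ≠ a + b) : 2 * P.card ≤ q + 1 := by
  classical
  have h1 : ∀ d : ZMod m, ∃ z, d ∈ D → z ∈ D ∧ ∃ d' ∈ D, y + z = d + d' := by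
    intro d
    by_cases hd : d ∈ D
    · obtain ⟨z, hz, d', hd', he⟩ := partner hm hD h hy hd
      exact ⟨z, fun _ => ⟨hz, d', hd', he⟩⟩
    · exact ⟨0, fun hd' => absurd hd' hd⟩
  choose φ hφ using h1
  have h2 : D.card ≤ 2 * (D \ P).card := by
    apply Finset.card_le_mul_card_image_of_maps_to (f := φ)
    · intro d hd
      obtain ⟨hz, d', hd', he⟩ := hφ d hd
      rw [Finset.mem_sdiff]
      exact ⟨hz, fun hzP => hPs _ hzP d hd d' hd' he⟩
    · intro z _
      rcases (D.filter (fun a => φ a = z)).eq_empty_or_nonempty with h0 | ⟨a, ha⟩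
      · rw [h0]; simp
      · rw [Finset.mem_filter] at ha
        obtain ⟨_, a', ha', he⟩ := hφ a ha.1
        have h3 : D.filter (fun a => φ a = z) ⊆ {a, a'} := by
          intro b hb
          rw [Finset.mem_filter] at hb
          obtain ⟨_, b', hb', he'⟩ := hφ b hb.1
          rw [hb.2, ← ha.2, he] at he'
          rw [Finset.mem_insert, Finset.mem_singleton]
          rcases h a ha.1 a' ha' b hb.1 b' hb' he' with ⟨h4, _⟩ | ⟨_, h4⟩
          · exact Or.inl h4.symm
          · exact Or.inr h4.symm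
        exact (Finset.card_le_card h3).trans Finset.card_le_two
  rw [Finset.card_sdiff_of_subset hP] at h2
  have h3 := Finset.card_le_card hP
  omega

/-- the number of `d ∈ D` with `2 d - y ∈ D` -/
def ff2 (D : Finset (ZMod m)) (y : ZMod m) : ℕ := (D.filter (fun d => d + d - y ∈ D)).card

/-- the elements `z` of `D` with `y + z` outside `D + D` -/
noncomputable def PP (D : Finset (ZMod m)) (y : ZMod m) : Finset (ZMod m) := by
  classical
  exact D.filter (fun z => ∀ a ∈ D, ∀ b ∈ D, y + z ≠ a + b)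

theorem mem_PP {y z : ZMod m} : z ∈ PP D y ↔ z ∈ D ∧ ∀ a ∈ D, ∀ b ∈ D, y + z ≠ a + b := by
  classical
  unfold PP
  rw [Finset.mem_filter]

/-- pairs in `D` whose sum is `y` plus an element of `D` -/
def WW (D : Finset (ZMod m)) (y : ZMod m) : Finset (ZMod m × ZMod m) :=
  (D ×ˢ D).filter (fun p => p.1 + p.2 - y ∈ D)

theorem mem_WW {y : ZMod m} {p : ZMod m × ZMod m} :
    p ∈ WW D y ↔ p.1 ∈ D ∧ p.2 ∈ D ∧ p.1 + p.2 - y ∈ D := by
  unfold WW
  rw [Finset.mem_filter, Finset.mem_product, and_assoc]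

theorem card_WW_le (h : IsSidonSet D) {y : ZMod m} (hy : y ∉ D) : (WW D y).card ≤ D.card := by
  apply Finset.card_le_card_of_injOn (fun p => p.1)
  · intro p hp
    exact (mem_WW.1 hp).1
  · rintro ⟨a, b⟩ hab ⟨c, d⟩ hcd he
    have he' : a = c := he
    subst he'
    have h1 := mem_WW.1 hab
    have h2 := mem_WW.1 hcd
    simp only at h1 h2
    have h3 : b + (a + d - y) = d + (a + b - y) := by abel
    rcases h b h1.2.1 _ h2.2.2 d h2.2.1 _ h1.2.2 h3 with ⟨h4, _⟩ | ⟨h4, _⟩
    · rw [h4]
    · exfalso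
      apply hy
      have : y = a := by
        have h5 : b + y = a + b := by
          have := congrArg (· + y) h4
          simpa using this
        have h6 : b + y = b + a := by rw [h5]; abel
        exact add_left_cancel h6
      rw [this]; exact h1.1

theorem card_WW_ge [NeZero m] (hm : m = q ^ 2 + q + 1) (hD : D.card = q + 1) (h : IsSidonSet D)
    {y : ZMod m} (hy : y ∉ D) : D.card ≤ (WW D y).card := by
  classical
  have h1 : D ⊆ (WW D y).image (fun p => p.1) := by
    intro d hd
    obtain ⟨z, hz, d', hd', he⟩ := partner hm hD h hy hd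
    rw [Finset.mem_image]
    refine ⟨(d, d'), mem_WW.2 ⟨hd, hd', ?_⟩, rfl⟩
    have : d + d' - y = z := by rw [← he]; abel
    simpa [this] using hz
  exact (Finset.card_le_card h1).trans Finset.card_image_le

/-- parity -/
theorem parity [NeZero m] (hm : m = q ^ 2 + q + 1) (hD : D.card = q + 1) (h : IsSidonSet D)
    {y : ZMod m} (hy : y ∉ D) : ff2 D y % 2 = (q + 1) % 2 := by
  classical
  have h1 : (WW D y).card = q + 1 := by
    rw [← hD]; exact le_antisymm (card_WW_le h hy) (card_WW_ge hm hD h hy)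
  have h2 : ((WW D y).filter (fun p => p.1 = p.2)).card = ff2 D y := by
    unfold ff2
    apply Finset.card_bij (fun p _ => p.1)
    · rintro ⟨a, b⟩ hp
      rw [Finset.mem_filter, mem_WW] at hp
      simp only at hp
      rw [Finset.mem_filter]
      obtain ⟨⟨h3, h4, h5⟩, rfl⟩ := hp
      exact ⟨h3, h5⟩
    · rintro ⟨a, b⟩ hp ⟨c, d⟩ hp' he
      rw [Finset.mem_filter] at hp hp'
      simp only at hp hp' he
      rw [← hp.2, ← hp'.2, he]
    · intro a ha
      rw [Finset.mem_filter] at ha
      exact ⟨(a, a), Finset.mem_filter.2 ⟨mem_WW.2 ⟨ha.1, ha.1, ha.2⟩, rfl⟩, rfl⟩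
  have h3 : (((WW D y).filter (fun p => ¬ p.1 = p.2)).card : ZMod 2) = 0 := by
    have h4 : ∑ p ∈ (WW D y).filter (fun p => ¬ p.1 = p.2), (1 : ZMod 2) = 0 := by
      apply Finset.sum_involution (fun p _ => Prod.swap p)
      · intro p _; decide
      · rintro ⟨a, b⟩ hp _ he
        rw [Finset.mem_filter] at hp
        apply hp.2
        have := congrArg Prod.fst he
        exact this.symm
      · rintro ⟨a, b⟩ hp
        rw [Finset.mem_filter, mem_WW] at hp ⊢
        simp only [Prod.swap_prod_mk] at hp ⊢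
        refine ⟨⟨hp.1.2.1, hp.1.1, ?_⟩, fun he => hp.2 he.symm⟩
        rw [add_comm b a]; exact hp.1.2.2
      · rintro ⟨a, b⟩ _
        rfl
    simpa using h4
  have h5 : 2 ∣ ((WW D y).filter (fun p => ¬ p.1 = p.2)).card := (ZMod.natCast_eq_zero_iff _ _).1 h3
  have h6 := Finset.card_filter_add_card_filter_not (s := WW D y) (fun p => p.1 = p.2)
  rw [h1, h2] at h6
  omega

/-- lower bound for the number of `z ∈ D` with `y + z` outside `D + D` -/
theorem card_PP (h : IsSidonSet D) {y : ZMod m} (hy : y ∉ D) :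
    D.card ≤ 2 * (PP D y).card + ff2 D y := by
  classical
  have h1 : (WW D y).card = ∑ z ∈ D, ((WW D y).filter (fun p => p.1 + p.2 - y = z)).card :=
    Finset.card_eq_sum_card_fiberwise (fun p hp => (mem_WW.1 hp).2.2)
  have h2 : ff2 D y = ∑ z ∈ D, ((D.filter (fun d => d + d - y ∈ D)).filter
      (fun d => d + d - y = z)).card :=
    Finset.card_eq_sum_card_fiberwise (fun d hd => (Finset.mem_filter.1 hd).2)
  have h3 : ∑ z ∈ D \ PP D y, 2 ≤ ∑ z ∈ D, (((WW D y).filter (fun p => p.1 + p.2 - y = z)).card +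
      ((D.filter (fun d => d + d - y ∈ D)).filter (fun d => d + d - y = z)).card) := by
    refine le_trans (Finset.sum_le_sum (g := fun z =>
      (((WW D y).filter (fun p => p.1 + p.2 - y = z)).card +
      ((D.filter (fun d => d + d - y ∈ D)).filter (fun d => d + d - y = z)).card)) ?_)
      (Finset.sum_le_sum_of_subset Finset.sdiff_subset)
    intro z hz
    rw [Finset.mem_sdiff, mem_PP] at hz
    obtain ⟨hzD, hz2⟩ := hz
    obtain ⟨a, ha, b, hb, hab⟩ : ∃ a ∈ D, ∃ b ∈ D, y + z = a + b := by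
      by_contra hcon
      push Not at hcon
      exact hz2 ⟨hzD, hcon⟩
    have hz3 : a + b - y = z := by rw [← hab]; abel
    rcases eq_or_ne a b with rfl | hne
    · have h4 : 1 ≤ ((WW D y).filter (fun p => p.1 + p.2 - y = z)).card := by
        apply Finset.card_pos.2
        exact ⟨(a, a), Finset.mem_filter.2 ⟨mem_WW.2 ⟨ha, ha, by simpa [hz3] using hzD⟩, hz3⟩⟩
      have h5 : 1 ≤ ((D.filter (fun d => d + d - y ∈ D)).filter (fun d => d + d - y = z)).card := by
        apply Finset.card_pos.2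
        exact ⟨a, Finset.mem_filter.2 ⟨Finset.mem_filter.2 ⟨ha, by rw [hz3]; exact hzD⟩, hz3⟩⟩
      omega
    · have h4 : 2 ≤ ((WW D y).filter (fun p => p.1 + p.2 - y = z)).card := by
        have h5 : ({(a, b), (b, a)} : Finset (ZMod m × ZMod m)) ⊆
            (WW D y).filter (fun p => p.1 + p.2 - y = z) := by
          intro p hp
          rw [Finset.mem_insert, Finset.mem_singleton] at hp
          rcases hp with rfl | rfl
          · exact Finset.mem_filter.2 ⟨mem_WW.2 ⟨ha, hb, by simpa [hz3] using hzD⟩, hz3⟩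
          · have : b + a - y = z := by rw [← hz3]; abel
            exact Finset.mem_filter.2 ⟨mem_WW.2 ⟨hb, ha, by simpa [this] using hzD⟩, this⟩
        have h6 := Finset.card_le_card h5
        rwa [Finset.card_pair (fun he => hne (congrArg Prod.fst he))] at h6
      omega
  rw [Finset.sum_add_distrib, ← h1, ← h2, Finset.sum_const, smul_eq_mul] at h3
  have h4 := card_WW_le h hy
  have h5 : PP D y ⊆ D := fun z hz => (mem_PP.1 hz).1
  rw [Finset.card_sdiff_of_subset h5] at h3
  have h6 := Finset.card_le_card h5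
  omega

end planar

end MPc709deU
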