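import Pool.Agent.Work.MP_c709de_al_thr.Planar

/-! Configurations for `m = q^2+q+1`. -/

namespace MPc709deU

open Finset MPc709deS MPc709de MPc709deT

section planar

variable {q m : ℕ} {D : Finset (ZMod m)}

theorem mem_low_sum {X : Finset (ZMod m)} {u : Multiset (ZMod m)} (hu : u ∈ low X) :
    ∃ a ∈ insert (0 : ZMod m) X, ∃ b ∈ insert (0 : ZMod m) X, u.sum = a + b := by
  obtain ⟨h1, h2⟩ := hu
  have h0 : (0 : ZMod m) ∈ insert (0 : ZMod m) X := Finset.mem_insert_self _ _
  rcases (by omega : Multiset.card u = 0 ∨ Multiset.card u = 1 ∨ Multiset.card u = 2) with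
    h | h | h
  · rw [Multiset.card_eq_zero] at h
    subst h
    exact ⟨0, h0, 0, h0, by simp⟩
  · obtain ⟨a, rfl⟩ := Multiset.card_eq_one.1 h
    exact ⟨a, Finset.mem_insert_of_mem (h2 a (by simp)), 0, h0, by simp⟩
  · obtain ⟨a, b, rfl⟩ := Multiset.card_eq_two.1 h
    exact ⟨a, Finset.mem_insert_of_mem (h2 a (by simp)), b,
      Finset.mem_insert_of_mem (h2 b (by simp)), by simp⟩

theorem sum_mem_low {X : Finset (ZMod m)} {a b : ZMod m} (ha : a ∈ insert (0 : ZMod m) X)
    (hb : b ∈ insert (0 : ZMod m) X) : ∃ u ∈ low X, u.sum = a + b := by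
  rw [Finset.mem_insert] at ha hb
  rcases ha with rfl | ha <;> rcases hb with rfl | hb
  · exact ⟨0, ⟨by simp, by simp⟩, by simp⟩
  · exact ⟨{b}, ⟨by simp, fun x hx => by rw [Multiset.mem_singleton] at hx; rw [hx]; exact hb⟩,
      by simp⟩
  · exact ⟨{a}, ⟨by simp, fun x hx => by rw [Multiset.mem_singleton] at hx; rw [hx]; exact ha⟩,
      by simp⟩
  · refine ⟨{a, b}, ⟨by simp, fun x hx => ?_⟩, by simp⟩
    simp only [Multiset.insert_eq_cons, Multiset.mem_cons, Multiset.mem_singleton] at hx
    rcases hx with rfl | rfl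
    · exact ha
    · exact hb

/-- construction of a configuration -/
theorem config_of {k : ℕ} (hD : D.card = k + 1) (h : IsSidonSet D) {y z0 : ZMod m}
    (hz0 : z0 ∈ D) {Z : Finset (ZMod m)} (hZ : Z ⊆ insert y D) (hz0Z : z0 ∉ Z)
    (hs : ∀ z ∈ insert z0 Z, ∀ a ∈ D, ∀ b ∈ D, y + z ≠ a + b) : Config k Z.card m := by
  classical
  have hinj : Function.Injective (fun a : ZMod m => a - z0) := sub_left_injective
  set D' := D.image (fun a => a - z0) with hD'
  have h0 : (0 : ZMod m) ∈ D' := Finset.mem_image.2 ⟨z0, hz0, sub_self z0⟩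
  have hSid : IsSidonSet D' := h.translate z0
  set X := D'.erase 0 with hX
  have hXD : insert (0 : ZMod m) X = D' := Finset.insert_erase h0
  have hXc : X.card = k := by
    rw [hX, Finset.card_erase_of_mem h0, Finset.card_image_of_injective _ hinj, hD]
    omega
  set y' := y - z0 with hy'
  set Z' := Z.image (fun a => a - z0) with hZ'
  have hs' : ∀ z ∈ insert (0 : ZMod m) Z', ∀ a ∈ D', ∀ b ∈ D', y' + z ≠ a + b := by
    intro z hz a ha b hb he
    obtain ⟨a', ha', rfl⟩ := Finset.mem_image.1 ha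
    obtain ⟨b', hb', rfl⟩ := Finset.mem_image.1 hb
    rw [Finset.mem_insert] at hz
    rcases hz with rfl | hz
    · refine hs z0 (Finset.mem_insert_self _ _) a' ha' b' hb' ?_
      have : y + z0 = (y' + 0) + z0 + z0 := by rw [hy']; abel
      rw [this, he]; abel
    · obtain ⟨z', hz', rfl⟩ := Finset.mem_image.1 hz
      refine hs z' (Finset.mem_insert_of_mem hz') a' ha' b' hb' ?_
      have : y + z' = (y' + (z' - z0)) + z0 + z0 := by rw [hy']; abel
      rw [this, he]; abel
  have h0Z' : (0 : ZMod m) ∉ Z' := by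
    intro hz
    obtain ⟨z', hz', he⟩ := Finset.mem_image.1 hz
    have : z' = z0 := sub_eq_zero.1 he
    rw [this] at hz'
    exact hz0Z hz'
  have hy'D : y' ∉ D' := by
    intro hy
    exact hs' 0 (Finset.mem_insert_self _ _) y' hy 0 h0 rfl
  have hZc : Z'.card = Z.card := Finset.card_image_of_injective _ hinj
  have h0X : (0 : ZMod m) ∉ X := Finset.notMem_erase _ _
  have hlow := (injOn_low_iff X).2 ⟨h0X, by rw [hXD]; exact hSid⟩
  refine ⟨X, hXc, Or.inr (Or.inl ⟨y', fun hy => hy'D (Finset.mem_of_mem_erase hy), Z', ?_, hZc, ?_⟩)⟩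
  · intro z hz
    obtain ⟨z', hz', rfl⟩ := Finset.mem_image.1 hz
    have h1 := hZ hz'
    rw [Finset.mem_insert] at h1 ⊢
    rcases h1 with rfl | h1
    · left; rfl
    · right
      rw [hX, Finset.mem_erase]
      refine ⟨fun he => ?_, Finset.mem_image.2 ⟨z', h1, rfl⟩⟩
      rw [he] at hz
      exact h0Z' hz
  · have hnot : ∀ u ∈ low X, ∀ z ∈ insert (0 : ZMod m) Z', u.sum ≠ y' + z := by
      intro u hu z hz he
      obtain ⟨a, ha, b, hb, hab⟩ := mem_low_sum hu
      rw [hXD] at ha hb
      exact hs' z hz a ha b hb (by rw [← he, hab])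
    have h00 : (0 : ZMod m) ∈ insert (0 : ZMod m) Z' := Finset.mem_insert_self _ _
    rintro u ((hu | hu) | ⟨z, hz, rfl⟩) v ((hv | hv) | ⟨w, hw, rfl⟩) huv
    · exact hlow hu hv huv
    · rw [Set.mem_singleton_iff] at hv
      subst hv
      exact absurd (by simpa using huv) (hnot u hu 0 h00)
    · exact absurd (by simpa using huv) (hnot u hu w (Finset.mem_insert_of_mem hw))
    · rw [Set.mem_singleton_iff] at hu
      subst hu
      exact absurd (by simpa using huv.symm) (hnot v hv 0 h00)
    · rw [Set.mem_singleton_iff] at hu hv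
      rw [hu, hv]
    · rw [Set.mem_singleton_iff] at hu
      subst hu
      exfalso
      apply h0Z'
      have : w = 0 := by simpa using huv
      rw [← this]; exact hw
    · exact absurd (by simpa using huv.symm) (hnot v hv z (Finset.mem_insert_of_mem hz))
    · rw [Set.mem_singleton_iff] at hv
      subst hv
      exfalso
      apply h0Z'
      have : z = 0 := by simpa using huv
      rw [← this]; exact hz
    · have : z = w := by simpa using huv
      rw [this]

/-- a configuration with `k = q` has `2 t ≤ q + 1` -/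
theorem t_bound [NeZero m] (hm : m = q ^ 2 + q + 1) {t : ℕ} (hq : 1 ≤ q) (h : Config q t m) :
    2 * t ≤ q + 1 := by
  classical
  obtain ⟨X, hX, ⟨rfl, -⟩ | ⟨y, hy, Z, hZ, hZt, hinj⟩ | ⟨rfl, -⟩⟩ := h
  · omega
  · have hlow : Set.InjOn Multiset.sum (low X) := hinj.mono (fun u hu => Or.inl (Or.inl hu))
    obtain ⟨h0, hSid⟩ := (injOn_low_iff X).1 hlow
    have hD : (insert (0 : ZMod m) X).card = q + 1 := by
      rw [Finset.card_insert_of_notMem h0, hX]
    -- the sums are outside `D + D`
    have hs : ∀ z ∈ insert (0 : ZMod m) Z, ∀ a ∈ insert (0 : ZMod m) X,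
        ∀ b ∈ insert (0 : ZMod m) X, y + z ≠ a + b := by
      intro z hz a ha b hb he
      obtain ⟨u, hu, hus⟩ := sum_mem_low ha hb
      rw [Finset.mem_insert] at hz
      rcases hz with rfl | hz
      · have h1 : u = {y} := hinj (Or.inl (Or.inl hu)) (Or.inl (Or.inr rfl))
          (by rw [hus, ← he]; simp)
        rw [h1] at hu
        exact hy (hu.2 y (by simp))
      · have h1 : u = {y, z} := hinj (Or.inl (Or.inl hu)) (Or.inr ⟨z, hz, rfl⟩)
          (by rw [hus, ← he]; simp)
        rw [h1] at hu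
        exact hy (hu.2 y (by simp))
    have hyD : y ∉ insert (0 : ZMod m) X := by
      intro hyD
      exact hs 0 (Finset.mem_insert_self _ _) y hyD 0 (Finset.mem_insert_self _ _) rfl
    have hP : insert (0 : ZMod m) (Z.erase y) ⊆ insert (0 : ZMod m) X := by
      apply Finset.insert_subset_insert
      intro z hz
      rw [Finset.mem_erase] at hz
      exact (Finset.mem_insert.1 (hZ hz.2)).resolve_left hz.1
    have h2 := two_mul_le hm hD hSid hyD hP (by
      intro z hz a ha b hb
      apply hs z _ a ha b hb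
      rw [Finset.mem_insert] at hz ⊢
      rcases hz with hz | hz
      · exact Or.inl hz
      · exact Or.inr (Finset.mem_of_mem_erase hz))
    have h0Z : (0 : ZMod m) ∉ Z.erase y := by
      intro hz
      rw [Finset.mem_erase] at hz
      exact h0 ((Finset.mem_insert.1 (hZ hz.2)).resolve_left hz.1)
    rw [Finset.card_insert_of_notMem h0Z] at h2
    have h3 : Z.card - 1 ≤ (Z.erase y).card := Finset.pred_card_le_card_erase
    omega
  · omega

theorem double_inj (hm : m = q ^ 2 + q + 1) {a b : ZMod m} (h : a + a = b + b) : a = b := by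
  have hodd : Odd m := by
    rw [hm]
    have h1 : Even (q ^ 2 + q) := by
      have : q ^ 2 + q = q * (q + 1) := by ring
      rw [this]; exact Nat.even_mul_succ_self q
    exact h1.add_one
  have h1 : (a - b) + (a - b) = 0 := by
    have : (a - b) + (a - b) = (a + a) - (b + b) := by abel
    rw [this, h, sub_self]
  exact sub_eq_zero.1 ((ZMod.add_self_eq_zero_iff_eq_zero hodd).1 h1)

/-- a subset of `q+1` elements which meets all the lines is a line -/
theorem line_of_blocking [NeZero m] (hq : 2 ≤ q) (hm : m = q ^ 2 + q + 1) (hD : D.card = q + 1)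
    (h : IsSidonSet D) {B : Finset (ZMod m)} (hB : B.card = q + 1)
    (hb : ∀ y, ∃ d ∈ D, d + y ∈ B) : ∃ y, ∀ d ∈ D, d + y ∈ B := by
  classical
  obtain ⟨s1, hs1, s2, hs2, hne⟩ := Finset.one_lt_card.1 (by omega : 1 < B.card)
  obtain ⟨d1, hd1, d2, hd2, hd⟩ := perfect hm hD h (sub_ne_zero.2 hne)
  refine ⟨s1 - d1, ?_⟩
  intro d hdD
  by_contra hP
  set P := d + (s1 - d1) with hPdef
  -- every point of `B` lies on a line through `P`
  have h1 : ∀ s : ZMod m, ∃ e, s ∈ B → e ∈ D ∧ ∃ d' ∈ D, s - P = d' - e := by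
    intro s
    by_cases hs : s ∈ B
    · have : s - P ≠ 0 := fun h0 => hP (by rw [← sub_eq_zero.1 h0]; exact hs)
      obtain ⟨a, ha, b, hb, hab⟩ := perfect hm hD h this
      exact ⟨b, fun _ => ⟨hb, a, ha, hab.symm⟩⟩
    · exact ⟨0, fun hs' => absurd hs' hs⟩
  choose g hg using h1
  -- `g` is onto `D`
  have hsurj : Set.SurjOn g (B : Set (ZMod m)) (D : Set (ZMod m)) := by
    intro e he
    obtain ⟨d', hd', hmem⟩ := hb (P - e)
    refine ⟨d' + (P - e), hmem, ?_⟩
    obtain ⟨hge, d'', hd'', heq⟩ := hg _ hmem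
    have h2 : d' + g (d' + (P - e)) = d'' + e := by
      have h3 : d' - e = d'' - g (d' + (P - e)) := by rw [← heq]; abel
      linear_combination h3
    rcases h d' hd' _ hge d'' hd'' e he h2 with ⟨_, h5⟩ | ⟨h5, h6⟩
    · exact h5
    · exfalso
      apply hP
      have : P = d' + (P - e) := by rw [h5]; abel
      rw [this]; exact hmem
  have hmaps : Set.MapsTo g (B : Set (ZMod m)) (D : Set (ZMod m)) := fun s hs => (hg s hs).1
  have hinj : Set.InjOn g (B : Set (ZMod m)) :=
    Finset.injOn_of_surjOn_of_card_le g hmaps hsurj (by rw [hB, hD])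
  -- the line through `s1` and `s2`
  have key : ∀ s ∈ B, ∀ d0 ∈ D, s = d0 + (s1 - d1) → g s = d := by
    intro s hs d0 hd0 he
    obtain ⟨hge, d'', hd'', heq⟩ := hg s hs
    have h2 : d0 + g s = d'' + d := by
      have h3 : d0 - d = d'' - g s := by rw [← heq, he, hPdef]; abel
      linear_combination h3
    rcases h d0 hd0 _ hge d'' hd'' d hdD h2 with ⟨_, h5⟩ | ⟨h5, h6⟩
    · exact h5
    · exfalso
      apply hP
      rw [hPdef, ← h5, ← he]; exact hs
  have h3 : g s1 = d := key s1 hs1 d1 hd1 (by abel)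
  have h4 : g s2 = d := key s2 hs2 d2 hd2 (by
    have : s2 = s1 - (d1 - d2) := by rw [hd]; abel
    conv_lhs => rw [this]
    abel)
  exact hne (hinj hs1 hs2 (by rw [h3, h4]))

end planar

end MPc709deU
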