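import Pool.Agent.Work.MP_c709de_al_top.Threshold

/-! Sharpness of the necessary condition for equality. -/

namespace MPc709deU

open Finset MPc709deS MPc709de MPc709deT

/-- Singer difference sets: equality for all `e ≥ (m-1)/2`, `m = q^2+q+1`. -/
theorem att_of_singer {q s e : ℕ} (hq : IsPrimePow q) (hs : s ≤ (q + 1).choose 2)
    (he : e + s = q ^ 2 + q) :
    3 ≤ e ∧ s ≤ e ∧ maxRho e (e + 1 + s) = ((ERV e (e + 1 + s) : ℕ) : ℕ∞) := by
  have e1 := choose2 q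
  have hq2 : 2 ≤ q := hq.two_le
  have hse : s ≤ e := by nlinarith
  have he3 : 3 ≤ e := by nlinarith
  refine ⟨he3, hse, ?_⟩
  have hlt := choose_gt he3 hse
  have h1 := kt_spec s
  have h2 := tt_le s
  rcases Nat.lt_or_ge s ((q + 1).choose 2) with h | h
  · have hk : MPc709deS.kk s < q := by
      by_contra hcon
      push Not at hcon
      have := Nat.choose_le_choose 2 (show q + 1 ≤ MPc709deS.kk s + 1 by omega)
      omega
    generalize MPc709deS.kk s = k at h1 h2 hk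
    generalize tt s = t at h1 h2
    have h3 : maxRho e (e + 1 + ((k + 1).choose 2 + t)) = ((cval e k t : ℕ) : ℕ∞) := by
      apply eq_of_sidon h2 (by omega)
      have h4 := singer_sidon hq
      have hm : q ^ 2 + q + 1 = e + 1 + ((k + 1).choose 2 + t) := by omega
      rw [hm] at h4
      exact exists_subset_sidon (by omega) h4
    rw [cval_eq h2 (by rw [h1]; exact hlt), h1] at h3
    exact h3
  · have hs' : s = (q + 1).choose 2 := le_antisymm hs h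
    have he' : e = (q + 1).choose 2 := by nlinarith
    have h3 := eq_of_singer hq
    have hm : q ^ 2 + q + 1 = (q + 1).choose 2 + 1 + ((q + 1).choose 2 + 0) := by nlinarith
    rw [hm, cval_eq (Nat.zero_le _) (by rw [add_zero]; rw [he', hs'] at hlt; exact hlt)] at h3
    rw [he', hs']
    exact h3

/-- the least `e` -/
noncomputable def lo (s : ℕ) : ℕ :=
  sInf {e | 3 ≤ e ∧ maxRho e (e + 1 + s) = ((ERV e (e + 1 + s) : ℕ) : ℕ∞)}

/-- the largest `m` -/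
noncomputable def hi (e : ℕ) : ℕ :=
  sSup {m | e < m ∧ maxRho e m = ((ERV e m : ℕ) : ℕ∞)}

theorem lo_set_nonempty (s : ℕ) :
    {e | 3 ≤ e ∧ maxRho e (e + 1 + s) = ((ERV e (e + 1 + s) : ℕ) : ℕ∞)}.Nonempty :=
  ⟨15 * s + 3, by omega, eq_lin (by omega) (by omega)⟩

theorem lo_mem (s : ℕ) : 3 ≤ lo s ∧
    maxRho (lo s) (lo s + 1 + s) = ((ERV (lo s) (lo s + 1 + s) : ℕ) : ℕ∞) :=
  Nat.sInf_mem (lo_set_nonempty s)

theorem lo_le {s e : ℕ} (he : 3 ≤ e)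
    (h : maxRho e (e + 1 + s) = ((ERV e (e + 1 + s) : ℕ) : ℕ∞)) : lo s ≤ e := Nat.sInf_le ⟨he, h⟩

theorem lo_ge (s : ℕ) : (s : ℝ) - 2 * Real.sqrt (2 * s) ≤ lo s :=
  le_of_eq' (lo_mem s).1 (lo_mem s).2

/-- at `s = q(q+1)/2` the least `e` is `s` -/
theorem lo_singer {q : ℕ} (hq : IsPrimePow q) : lo ((q + 1).choose 2) = (q + 1).choose 2 := by
  have e1 := choose2 q
  have h1 := att_of_singer (s := (q + 1).choose 2) (e := (q + 1).choose 2) hq le_rfl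
    (by nlinarith)
  apply le_antisymm (lo_le h1.1 h1.2.2)
  by_contra hcon
  push Not at hcon
  have h2 := lt_of_few (k := q) (t := 0) (lo_mem ((q + 1).choose 2)).1 (Nat.zero_le _)
    (by simpa using hcon)
  rw [add_zero, (lo_mem ((q + 1).choose 2)).2] at h2
  exact lt_irrefl _ h2

theorem exists_prime_between {a b : ℝ} (ha : 0 < a) (hab : a < b) :
    ∃ x₀ : ℝ, ∀ x ≥ x₀, ∃ p : ℕ, p.Prime ∧ a * x < p ∧ (p : ℝ) ≤ b * x := by
  have hb : 0 < b := ha.trans hab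
  have h1 := Pool.Agent.Work.PNT70.exists_prime_short (ε := 1 - a / b)
    (by rw [sub_pos, div_lt_one hb]; exact hab)
  rw [Filter.eventually_atTop] at h1
  obtain ⟨x₀, hx₀⟩ := h1
  refine ⟨x₀ / b, fun x hx => ?_⟩
  obtain ⟨p, hp, h2, h3⟩ := hx₀ (b * x) (by rw [ge_iff_le, div_le_iff₀ hb] at hx; linarith)
  refine ⟨p, hp, ?_, h3⟩
  have : (1 - (1 - a / b)) * (b * x) = a * x := by field_simp; ring
  linarith

/-- upper bound for the least `e` -/
theorem lo_upper {δ : ℝ} (hδ : 0 < δ) : ∃ s₀ : ℕ, ∀ s ≥ s₀, (lo s : ℝ) ≤ (1 + δ) * s := by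
  obtain ⟨η, hη0, hη1⟩ : ∃ η : ℝ, 0 < η ∧ 2 * (1 + η) ^ 2 < 2 + δ / 2 := by
    refine ⟨min 1 (δ / 16), lt_min one_pos (by positivity), ?_⟩
    have h1 : min 1 (δ / 16) ≤ 1 := min_le_left _ _
    have h2 : min 1 (δ / 16) ≤ δ / 16 := min_le_right _ _
    have h3 : 0 < min 1 (δ / 16) := lt_min one_pos (by positivity)
    nlinarith
  obtain ⟨x₀, hx₀⟩ := exists_prime_between (a := 1 + η / 2) (b := 1 + η) (by positivity)
    (by linarith)
  obtain ⟨k₀, hk₀⟩ : ∃ k₀ : ℕ, 1 ≤ k₀ ∧ x₀ ≤ k₀ :=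
    ⟨max 1 ⌈x₀⌉₊, le_max_left _ _, Nat.ceil_le.1 (le_max_right _ _)⟩
  refine ⟨(k₀ + 1).choose 2, fun s hs => ?_⟩
  have h1 := kt_spec s
  have h2 := tt_le s
  have h3 : k₀ ≤ MPc709deS.kk s := by
    have h4 := MPc709deS.kk_mono hs
    have h5 := (kt_unique (k := k₀) (t := 0) (Nat.zero_le _) rfl).1
    simp only [add_zero] at h5
    omega
  generalize MPc709deS.kk s = k at h1 h2 h3
  generalize tt s = t at h1 h2
  have hkR : (k₀ : ℝ) ≤ k := by exact_mod_cast h3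
  have hk1 : (1 : ℝ) ≤ k := by exact_mod_cast le_trans hk₀.1 h3
  obtain ⟨p, hp, hp1, hp2⟩ := hx₀ k (hk₀.2.trans hkR)
  have hkp : k < p := by
    have : (k : ℝ) < p := by nlinarith
    exact_mod_cast this
  have e1 := choose2 k
  have e2 := choose2 p
  have e3 : (k + 2) * (k + 1) ≤ (p + 1) * p := Nat.mul_le_mul (by omega) (by omega)
  have hsp : s ≤ (p + 1).choose 2 := by nlinarith
  obtain ⟨e, he⟩ : ∃ e, e + s = p ^ 2 + p := ⟨p ^ 2 + p - s, by
    have : s ≤ p ^ 2 + p := by nlinarith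
    omega⟩
  obtain ⟨h5, h6, h7⟩ := att_of_singer hp.isPrimePow hsp he
  have h8 : (lo s : ℝ) ≤ e := by exact_mod_cast lo_le h5 h7
  have heR : (e : ℝ) + s = (p : ℝ) ^ 2 + p := by exact_mod_cast he
  have hsR : (k : ℝ) * (k + 1) ≤ 2 * s := by
    have : k * (k + 1) ≤ 2 * s := by omega
    exact_mod_cast this
  have h9 : (p : ℝ) * (p + 1) ≤ (1 + η) ^ 2 * (k * (k + 1)) := by
    have hp0 : (0 : ℝ) ≤ p := Nat.cast_nonneg p
    calc (p : ℝ) * (p + 1) ≤ ((1 + η) * k) * ((1 + η) * k + 1) := by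
          apply mul_le_mul hp2 (by linarith) (by linarith) (by positivity)
      _ ≤ ((1 + η) * k) * ((1 + η) * k + (1 + η)) := by
          apply mul_le_mul_of_nonneg_left (by linarith) (by positivity)
      _ = _ := by ring
  have h10 : (1 + η) ^ 2 * ((k : ℝ) * (k + 1)) ≤ (1 + η) ^ 2 * (2 * s) :=
    mul_le_mul_of_nonneg_left hsR (by positivity)
  have hs0 : (0 : ℝ) ≤ s := Nat.cast_nonneg s
  nlinarith

/-- The least `e` with equality is asymptotic to `s`. -/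
theorem lo_asymp : Filter.Tendsto (fun s : ℕ => (lo s : ℝ) / s) Filter.atTop (nhds 1) := by
  rw [Metric.tendsto_atTop]
  intro ε hε
  obtain ⟨s₀, hs₀⟩ := lo_upper (δ := ε / 2) (by positivity)
  refine ⟨max (max s₀ 1) (⌈32 / ε ^ 2⌉₊), fun s hs => ?_⟩
  have h1 : s₀ ≤ s := le_trans (le_trans (le_max_left _ _) (le_max_left _ _)) hs
  have h2 : 1 ≤ s := le_trans (le_trans (le_max_right _ _) (le_max_left _ _)) hs
  have h3 : 32 / ε ^ 2 ≤ s := Nat.ceil_le.1 (le_trans (le_max_right _ _) hs)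
  have h2R : (1 : ℝ) ≤ s := by exact_mod_cast h2
  have h4 := hs₀ s h1
  have h5 := lo_ge s
  have h6 : 2 * Real.sqrt (2 * s) ≤ ε / 2 * s := by
    have h7 : Real.sqrt (2 * s) ≤ ε / 4 * s := by
      apply Real.sqrt_le_iff.2
      refine ⟨by positivity, ?_⟩
      rw [div_le_iff₀ (by positivity)] at h3
      nlinarith
    linarith
  rw [Real.dist_eq, abs_lt]
  constructor
  · rw [lt_sub_iff_add_lt, lt_div_iff₀ (by linarith)]
    nlinarith
  · rw [sub_lt_iff_lt_add, div_lt_iff₀ (by linarith)]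
    nlinarith

theorem bound_of_sqrt {s e : ℕ} (h : (s : ℝ) - 2 * Real.sqrt (2 * s) ≤ e) :
    (s : ℝ) ≤ e + 4 + 2 * Real.sqrt (2 * e + 4) := by
  have h1 : Real.sqrt (2 * s) = Real.sqrt 2 * Real.sqrt s := Real.sqrt_mul (by norm_num) _
  have h2 : Real.sqrt (2 * e + 4) = Real.sqrt 2 * Real.sqrt (e + 2) := by
    rw [← Real.sqrt_mul (by norm_num)]; congr 1; ring
  rw [h1] at h
  rw [h2]
  have h3 : Real.sqrt s ^ 2 = s := Real.sq_sqrt (Nat.cast_nonneg s)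
  have h4 : Real.sqrt 2 ^ 2 = 2 := Real.sq_sqrt (by norm_num)
  have h5 : Real.sqrt ((e : ℝ) + 2) ^ 2 = e + 2 := Real.sq_sqrt (by positivity)
  have h6 : Real.sqrt s - Real.sqrt 2 ≤ Real.sqrt ((e : ℝ) + 2) := by
    apply Real.le_sqrt_of_sq_le
    nlinarith
  have h7 : Real.sqrt s ≤ Real.sqrt 2 + Real.sqrt ((e : ℝ) + 2) := by linarith
  have h8 : Real.sqrt s ^ 2 ≤ (Real.sqrt 2 + Real.sqrt ((e : ℝ) + 2)) ^ 2 :=
    pow_le_pow_left₀ (Real.sqrt_nonneg _) h7 2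
  nlinarith

theorem hi_bound {e m : ℕ} (he : 3 ≤ e) (hm : e < m ∧ maxRho e m = ((ERV e m : ℕ) : ℕ∞)) :
    (m : ℝ) ≤ 2 * e + 5 + 2 * Real.sqrt (2 * e + 4) := by
  obtain ⟨s, rfl⟩ : ∃ s, m = e + 1 + s := ⟨m - (e + 1), by omega⟩
  have h1 := bound_of_sqrt (le_of_eq' he hm.2)
  push_cast
  linarith

theorem hi_bdd {e : ℕ} (he : 3 ≤ e) :
    BddAbove {m | e < m ∧ maxRho e m = ((ERV e m : ℕ) : ℕ∞)} := by
  refine ⟨⌈2 * (e : ℝ) + 5 + 2 * Real.sqrt (2 * e + 4)⌉₊, fun m hm => ?_⟩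
  have h1 := hi_bound he hm
  exact_mod_cast h1.trans (Nat.le_ceil _)

theorem hi_nonempty {e : ℕ} (he : 3 ≤ e) :
    {m | e < m ∧ maxRho e m = ((ERV e m : ℕ) : ℕ∞)}.Nonempty :=
  ⟨e + 1 + 0, by omega, eq_zero he⟩

theorem hi_le {e : ℕ} (he : 3 ≤ e) : (hi e : ℝ) ≤ 2 * e + 5 + 2 * Real.sqrt (2 * e + 4) :=
  hi_bound he (Nat.sSup_mem (hi_nonempty he) (hi_bdd he))

theorem le_hi {e m : ℕ} (he : 3 ≤ e) (hem : e < m)
    (h : maxRho e m = ((ERV e m : ℕ) : ℕ∞)) : m ≤ hi e :=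
  le_csSup (hi_bdd he) ⟨hem, h⟩

theorem hi_lower {δ : ℝ} (hδ : 0 < δ) : ∃ e₀ : ℕ, ∀ e ≥ e₀, (2 - δ) * (e : ℝ) ≤ hi e := by
  obtain ⟨η, hη0, hη1, hη2⟩ : ∃ η : ℝ, 0 < η ∧ η < 1 ∧ 4 * η ≤ δ := by
    refine ⟨min (1 / 2) (δ / 4), lt_min (by norm_num) (by positivity), ?_, ?_⟩
    · exact lt_of_le_of_lt (min_le_left _ _) (by norm_num)
    · have : min (1 / 2) (δ / 4) ≤ δ / 4 := min_le_right _ _
      linarith
  obtain ⟨x₀, hx₀⟩ := exists_prime_between (a := 1 - η) (b := 1 - η / 2) (by linarith)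
    (by linarith)
  set y : ℝ := max (max x₀ 4) (4 / η) with hy
  refine ⟨max 3 ⌈y ^ 2⌉₊, fun e he => ?_⟩
  have he3 : 3 ≤ e := le_trans (le_max_left _ _) he
  have heR : y ^ 2 ≤ e := Nat.ceil_le.1 (le_trans (le_max_right _ _) he)
  have hy1 : x₀ ≤ y := le_trans (le_max_left _ _) (le_max_left _ _)
  have hy2 : 4 ≤ y := le_trans (le_max_right _ _) (le_max_left _ _)
  have hy3 : 4 / η ≤ y := le_max_right _ _
  set x : ℝ := Real.sqrt (2 * e) with hx
  have hx2 : x ^ 2 = 2 * e := Real.sq_sqrt (by positivity)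
  have hyx : y ≤ x := by
    apply Real.le_sqrt_of_sq_le
    nlinarith
  obtain ⟨p, hp, hp1, hp2⟩ := hx₀ x (hy1.trans hyx)
  have hp0 : (0 : ℝ) ≤ p := Nat.cast_nonneg p
  have h1 : 4 ≤ η * x := by
    rw [div_le_iff₀ hη0] at hy3
    nlinarith
  have h2 : (p : ℝ) ^ 2 + p ≤ 2 * e := by
    rw [← hx2]
    have hx0 : 0 ≤ x := by linarith
    have h3 : (p : ℝ) ^ 2 ≤ ((1 - η / 2) * x) ^ 2 := pow_le_pow_left₀ hp0 hp2 2
    have h4 : (1 - η / 2) ^ 2 ≤ 1 - η / 2 := by nlinarith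
    have h5 : ((1 - η / 2) * x) ^ 2 ≤ (1 - η / 2) * x ^ 2 := by
      rw [mul_pow]
      exact mul_le_mul_of_nonneg_right h4 (by positivity)
    have h6 : (p : ℝ) ≤ x := by nlinarith
    have h7 : 4 * x ≤ η * x * x := mul_le_mul_of_nonneg_right h1 hx0
    nlinarith
  have h2N : p ^ 2 + p ≤ 2 * e := by exact_mod_cast h2
  have h3 : (2 - δ) * (e : ℝ) ≤ (p : ℝ) ^ 2 + p := by
    have h4 : ((1 - η) * x) ^ 2 ≤ (p : ℝ) ^ 2 :=
      pow_le_pow_left₀ (mul_nonneg (by linarith) (by linarith)) hp1.le 2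
    have h5 : ((1 - η) * x) ^ 2 = (1 - η) ^ 2 * (2 * e) := by rw [mul_pow, hx2]
    have he0 : (0 : ℝ) ≤ e := Nat.cast_nonneg e
    nlinarith
  rcases Nat.lt_or_ge (p ^ 2 + p) e with h4 | h4
  · -- then `2 - δ < 1`
    have h5 : ((p ^ 2 + p : ℕ) : ℝ) < e := by exact_mod_cast h4
    push_cast at h5
    have h6 : (e : ℝ) ≤ hi e := by
      have := le_hi he3 (show e < e + 1 + 0 by omega) (eq_zero he3)
      exact_mod_cast (by omega : e ≤ hi e)
    linarith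
  · obtain ⟨s, hs⟩ : ∃ s, e + s = p ^ 2 + p := ⟨p ^ 2 + p - e, by omega⟩
    have e2 := choose2 p
    have h5 := att_of_singer hp.isPrimePow (by nlinarith) hs
    have h6 := le_hi he3 (by omega) h5.2.2
    have h7 : ((p ^ 2 + p : ℕ) : ℝ) ≤ hi e := by exact_mod_cast (by omega : p ^ 2 + p ≤ hi e)
    push_cast at h7
    linarith

/-- The largest `m` with equality is asymptotic to `2 e`. -/
theorem hi_asymp : Filter.Tendsto (fun e : ℕ => (hi e : ℝ) / e) Filter.atTop (nhds 2) := by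
  rw [Metric.tendsto_atTop]
  intro ε hε
  obtain ⟨e₀, he₀⟩ := hi_lower (δ := ε / 2) (by positivity)
  refine ⟨max (max e₀ 3) (max ⌈20 / ε⌉₊ ⌈400 / ε ^ 2⌉₊), fun e he => ?_⟩
  have h1 : e₀ ≤ e := le_trans (le_trans (le_max_left _ _) (le_max_left _ _)) he
  have h2 : 3 ≤ e := le_trans (le_trans (le_max_right _ _) (le_max_left _ _)) he
  have h3 : 20 / ε ≤ e :=
    Nat.ceil_le.1 (le_trans (le_trans (le_max_left _ _) (le_max_right _ _)) he)
  have h3' : 400 / ε ^ 2 ≤ e :=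
    Nat.ceil_le.1 (le_trans (le_trans (le_max_right _ _) (le_max_right _ _)) he)
  have h2R : (3 : ℝ) ≤ e := by exact_mod_cast h2
  have h4 := he₀ e h1
  have h5 := hi_le h2
  have h6 : 2 * Real.sqrt (2 * e + 4) ≤ ε / 2 * e := by
    have h7 : Real.sqrt (2 * e + 4) ≤ ε / 4 * e := by
      apply Real.sqrt_le_iff.2
      refine ⟨by positivity, ?_⟩
      rw [div_le_iff₀ (by positivity)] at h3'
      nlinarith
    linarith
  have h8 : 20 ≤ ε * e := by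
    rw [div_le_iff₀ hε] at h3
    linarith
  rw [Real.dist_eq, abs_lt]
  constructor
  · rw [lt_sub_iff_add_lt, lt_div_iff₀ (by linarith)]
    nlinarith
  · rw [sub_lt_iff_lt_add, div_lt_iff₀ (by linarith)]
    nlinarith

end MPc709deU
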